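import Pool.Agent.Y133.Half.HalfDefs
import Pool.Agent.TH125.Gal.Pub
import Mathlib.Topology.Instances.Real.Lemmas

/-!
# The share of the algebraic classes among the Tate classes: definitions
-/

set_option autoImplicit false

open CategoryTheory AlgebraicGeometry Filter Topology

universe u v

namespace Pool.Agent.U226.GT

/-- The property `p` holds for all elements of a subgroup of finite index. -/
def Potentially {Γ : Type} [Group Γ] (p : Γ → Prop) : Prop :=
  ∃ Δ : Subgroup Γ, Δ.FiniteIndex ∧ ∀ g ∈ Δ, p g

section Alg

variable {K : Type v} [Field K] {A : Type v} [Ring A] [Algebra K A] {B : Type v} [Ring B]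
  [Algebra K B] {Γ : Type} [Group Γ]

/-- The homomorphism `f` commutes with the actions of a subgroup of finite index. -/
def Commutes (f : A →ₐ[K] B) (ρ : Γ →* (A ≃ₐ[K] A)) (υ : Γ →* (B ≃ₐ[K] B)) : Prop :=
  Potentially fun g => ∀ a, υ g (f a) = f (ρ g a)

/-- The element `c` has degree `2 j` and is invariant under a subgroup of finite index, up to the
Tate twist. -/
def TateElt (χ : Γ →* Kˣ) (gr : ℕ → Submodule K A) (ρ : Γ →* (A ≃ₐ[K] A)) (j : ℕ) (c : A) :
    Prop :=
  c ∈ gr (2 * j) ∧ Potentially fun g => ρ g c = (χ g : K) ^ j • c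

/-- The subspace `U` is stable under a subgroup of finite index. -/
def PotStable (ρ : Γ →* (A ≃ₐ[K] A)) (U : Submodule K A) : Prop :=
  Potentially fun g => ∀ u ∈ U, ρ g u ∈ U

/-- Every subspace of `H` which is stable under a subgroup of finite index has a complement in `H` of
the same kind. -/
def SemisimpleAct (H : Submodule K A) (ρ : Γ →* (A ≃ₐ[K] A)) : Prop :=
  ∀ U ≤ H, PotStable ρ U → ∃ U' ≤ H, PotStable ρ U' ∧ U ⊓ U' = ⊥ ∧ U ⊔ U' = H

end Alg

open Pool.Agent.H914 Pool.Agent.H914.VarClass Pool.Agent.H914.VarClass.Obj
  Pool.Agent.H914.WeilCohomology Pool.Agent.H281R3.HT Pool.Agent.TH125.Gal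
open Pool.Agent.Y133.Half (pw algDim dimOf numDim)

variable {k : Type u} [Field k] {𝒱 : VarClass k} {ops : CycleOps 𝒱}

/-- An action of the group `Γ` on the cohomology of the varieties with the formal properties of the
action of the Galois group of a field `F` on the `ℓ`-adic cohomology of the varieties over the
algebraic closure `k` of `F` with a model over `F`: `IsGaloisAct` (`Γ` acts by automorphisms of the
graded algebras `H(X)`; the element `g` multiplies the orientation by `χ g ^ dim X` (`χ` describes the
action on the Tate twists), and the class of a cycle of codimension `j` by `χ g ^ j` if `g` is in a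
subgroup of finite index), and pull-backs commute with a subgroup of finite index (the morphisms are
defined over a finite extension of `F`). -/
structure GaloisAction (W : WeilCohomology.{u, v} ops) (Γ : Type) [Group Γ] where
  /-- the action on the Tate twists -/
  χ : Γ →* W.Kˣ
  /-- the action on the cohomology -/
  act : ∀ X : 𝒱.Obj, Γ →* (W.H X ≃ₐ[W.K] W.H X)
  galois : ∀ X : 𝒱.Obj, IsGaloisAct χ (W.gr X) X.dim (W.tr X) (algClasses W X) (act X)
  natural : ∀ (X Y : 𝒱.Obj) (f : X ⟶ Y), Commutes (W.map f) (act Y) (act X)

variable {W : WeilCohomology.{u, v} ops} {Γ : Type} [Group Γ] (G : GaloisAction W Γ)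

/-- The Tate classes of codimension `j` (for some finite extension of the field `F`): the classes `c` in
`H^(2j)(X)` which are invariant under a subgroup of finite index, after the Tate twist `(j)`. -/
def IsTate (X : 𝒱.Obj) (j : ℕ) (c : W.H X) : Prop := TateElt G.χ (W.gr X) (G.act X) j c

/-- The action on `H^i(X)` is semisimple: every subspace of `H^i(X)` which is stable under a subgroup
of finite index has a complement of the same kind. -/
def Semisimple (X : 𝒱.Obj) (i : ℕ) : Prop := SemisimpleAct (W.gr X i) (G.act X)

/-- The Tate conjecture for `X` (over all finite extensions of `F`): all Tate classes are linear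
combinations, with coefficients in the coefficient field of the cohomology, of classes of algebraic
cycles. -/
def TateConjecture (X : 𝒱.Obj) : Prop := TateAct G.χ (W.gr X) (algClasses W X) (G.act X)

/-- The statement Q1 for `X`: semisimplicity in all even degrees, and the Tate conjecture. -/
def Q1 (X : 𝒱.Obj) : Prop := (∀ j, Semisimple G X (2 * j)) ∧ TateConjecture G X

variable (W) in
/-- The image `c_* (a)` in `H(Z)` of a class `a` on `P` under the correspondence `c`. -/
noncomputable def image {P Z : 𝒱.Obj} (c : W.H (P.prod Z)) (a : W.H P) : W.H Z := W.corr c a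

/-- The subspace `V_Tate` of `H(Z)` spanned by the images of the correspondences given by the Tate
classes on the products of the powers of `X` with `Z`. -/
def VTate (X Z : 𝒱.Obj) : Set (W.H Z) :=
  Submodule.span W.K {y | ∃ n j c, IsTate G ((pw X n).prod Z) j c ∧ ∃ a, y = image W c a}

variable (W) in
/-- The class `c` on `V` is the class of an algebraic cycle of codimension `j`. -/
def IsAlg (V : 𝒱.Obj) (j : ℕ) (c : W.H V) : Prop := ∃ z, V.IsCyc j z ∧ W.cl V z = c

variable (W) in
/-- The subspace `V_alg` of `H(Z)` spanned by the images of the algebraic correspondences from the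
powers of `X` to `Z`. -/
def Valg (X Z : 𝒱.Obj) : Set (W.H Z) :=
  Submodule.span W.K {y | ∃ n j c, IsAlg W ((pw X n).prod Z) j c ∧ ∃ a, y = image W c a}

variable (W) in
/-- The dimension of the space spanned by the classes of algebraic cycles on `X ^ (n + 1) × Z`. -/
noncomputable def a (X Z : 𝒱.Obj) (n : ℕ) : ℝ := algDim W ((pw X n).prod Z)

/-- The dimension of the space spanned by the Tate classes on `X ^ (n + 1) × Z`. -/
noncomputable def t (X Z : 𝒱.Obj) (n : ℕ) : ℝ :=
  dimOf W {c : W.H ((pw X n).prod Z) | ∃ j, IsTate G _ j c}

/-- The share of the algebraic classes converges, and the limit is `dim V_alg / dim V_Tate`, where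
`V_Tate` is not zero. -/
def ShareFormula (X Z : 𝒱.Obj) : Prop :=
  0 < dimOf W (VTate G X Z) ∧ Tendsto (fun n => a W X Z n / t G X Z n) atTop
    (𝓝 (dimOf W (Valg W X Z) / dimOf W (VTate G X Z)))

/-- Asymptotically at least the fraction `1 / (b(Z) + 1)` of the Tate classes on `X ^ (n + 1) × Z` is
not accounted for by the algebraic classes modulo numerical equivalence; `b(Z)` is the sum of the Betti
numbers of `Z`. -/
def Gap (X Z : 𝒱.Obj) : Prop :=
  ∀ ε : ℝ, 0 < ε → ∃ n₀ : ℕ, ∀ n ≥ n₀, (numDim W ((pw X n).prod Z) : ℝ) ≤
    (1 - 1 / ((dimOf W (Set.univ : Set (W.H Z)) : ℝ) + 1) + ε) * t G X Z n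

end Pool.Agent.U226.GT
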