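import Pool.Agent.U226.GT.Defs
import Pool.Agent.Y133.Half.PredSys

/-!
# The Tate classes as a system of classes
-/

set_option linter.unusedSectionVars false
set_option autoImplicit false

open CategoryTheory AlgebraicGeometry Filter Topology

universe u v

namespace Pool.Agent.U226.GT

open Module
open Pool.Agent.H914 Pool.Agent.H914.VarClass Pool.Agent.H914.VarClass.Obj
  Pool.Agent.H914.WeilCohomology
open Pool.Agent.Y133.Half (pw ClassPred)

/-- The filter of the sets which contain a subgroup of finite index. -/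
def pf (Γ : Type) [Group Γ] : Filter Γ where
  sets := {s | Potentially (· ∈ s)}
  univ_sets := ⟨⊤, inferInstance, fun _ _ => trivial⟩
  sets_of_superset := by
    rintro s t ⟨Δ, hΔ, h⟩ hst
    exact ⟨Δ, hΔ, fun g hg => hst (h g hg)⟩
  inter_sets := by
    rintro s t ⟨Δ, hΔ, h⟩ ⟨Δ', hΔ', h'⟩
    exact ⟨Δ ⊓ Δ', inferInstance, fun g hg => ⟨h g hg.1, h' g hg.2⟩⟩

lemma ev_iff {Γ : Type} [Group Γ] {p : Γ → Prop} : (∀ᶠ g in pf Γ, p g) ↔ Potentially p := Iff.rfl

lemma ev_inv {Γ : Type} [Group Γ] {p : Γ → Prop} (h : ∀ᶠ g in pf Γ, p g) :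
    ∀ᶠ g in pf Γ, p g⁻¹ := by
  obtain ⟨Δ, hΔ, h⟩ := ev_iff.1 h
  exact ⟨Δ, hΔ, fun g hg => h _ (Δ.inv_mem hg)⟩

variable {k : Type u} [Field k] {𝒱 : VarClass k} {ops : CycleOps 𝒱}
  {W : WeilCohomology.{u, v} ops} {Γ : Type} [Group Γ] {G : GaloisAction W Γ}
  {X Y Z P Q N : 𝒱.Obj}

lemma GaloisAction.gr_mem (G : GaloisAction W Γ) (X : 𝒱.Obj) (g : Γ) (i : ℕ) (a : W.H X)
    (ha : a ∈ W.gr X i) : G.act X g a ∈ W.gr X i := (G.galois X).gr_mem g i a ha

lemma GaloisAction.tr_act (G : GaloisAction W Γ) (X : 𝒱.Obj) (g : Γ) (a : W.H X) :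
    W.tr X (G.act X g a) = (G.χ g : W.K) ^ X.dim * W.tr X a := (G.galois X).tr_act g a

lemma GaloisAction.map_act (G : GaloisAction W Γ) {X Y : 𝒱.Obj} (f : X ⟶ Y) :
    Potentially fun g => ∀ y, G.act X g (W.map f y) = W.map f (G.act Y g y) := G.natural X Y f

lemma GaloisAction.cl_act (G : GaloisAction W Γ) (X : 𝒱.Obj) (j : ℕ) (z : X.Cycles)
    (hz : X.IsCyc j z) : Potentially fun g => G.act X g (W.cl X z) =
      (G.χ g : W.K) ^ j • W.cl X z := (G.galois X).cl_fix j _ ⟨z, hz, rfl⟩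

lemma act_inv (g : Γ) (a : W.H X) : G.act X g (G.act X g⁻¹ a) = a := by
  have h : (G.act X g * G.act X g⁻¹) a = a := by rw [← map_mul, mul_inv_cancel, map_one]; rfl
  exact h

lemma chi_ne (g : Γ) (n : ℕ) : (G.χ g : W.K) ^ n ≠ 0 := pow_ne_zero _ (G.χ g).ne_zero

/-- Push-forwards are equivariant up to the twist. -/
lemma push_act (f : X ⟶ Y) : ∀ᶠ g in pf Γ, ∀ a,
    (G.χ g : W.K) ^ X.dim • G.act Y g (W.push f a) =
      (G.χ g : W.K) ^ Y.dim • W.push f (G.act X g a) := by
  filter_upwards [ev_iff.2 (G.map_act f)] with g hg a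
  apply W.tr_ext
  intro c
  obtain ⟨c', rfl⟩ : ∃ c', c = G.act Y g c' := ⟨G.act Y g⁻¹ c, (act_inv g c).symm⟩
  rw [smul_mul_assoc, smul_mul_assoc, map_smul, map_smul, ← map_mul, G.tr_act, W.tr_push,
    W.tr_push, ← hg, ← map_mul, G.tr_act, smul_eq_mul, smul_eq_mul]
  ring

namespace IsTate

variable {j l : ℕ} {c d : W.H X}

lemma ev (h : IsTate G X j c) : ∀ᶠ g in pf Γ, G.act X g c = (G.χ g : W.K) ^ j • c := h.2

lemma zero : IsTate G X j 0 :=
  ⟨Submodule.zero_mem _, ev_iff.1 (Eventually.of_forall fun g => by rw [map_zero, smul_zero])⟩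

lemma add (h : IsTate G X j c) (h' : IsTate G X j d) : IsTate G X j (c + d) := by
  refine ⟨Submodule.add_mem _ h.1 h'.1, ev_iff.1 ?_⟩
  filter_upwards [h.ev, h'.ev] with g hg hg'
  rw [map_add, hg, hg', smul_add]

lemma smul (r : W.K) (h : IsTate G X j c) : IsTate G X j (r • c) := by
  refine ⟨Submodule.smul_mem _ _ h.1, ev_iff.1 ?_⟩
  filter_upwards [h.ev] with g hg
  rw [map_smul, hg, smul_comm]

lemma cl {z : X.Cycles} (hz : X.IsCyc j z) : IsTate G X j (W.cl X z) :=
  ⟨W.cl_mem hz, G.cl_act X j z hz⟩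

lemma mul (h : IsTate G X j c) (h' : IsTate G X l d) : IsTate G X (j + l) (c * d) := by
  refine ⟨?_, ev_iff.1 ?_⟩
  · have := W.mul_mem h.1 h'.1
    rwa [show 2 * j + 2 * l = 2 * (j + l) by ring] at this
  · filter_upwards [h.ev, h'.ev] with g hg hg'
    rw [map_mul, hg, hg', smul_mul_assoc, mul_smul_comm, smul_smul, pow_add]

lemma map (f : X ⟶ Y) {b : W.H Y} (h : IsTate G Y j b) : IsTate G X j (W.map f b) := by
  refine ⟨W.map_mem f h.1, ev_iff.1 ?_⟩
  filter_upwards [h.ev, ev_iff.2 (G.map_act f)] with g hg hg'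
  rw [hg', hg, map_smul]

lemma push (f : X ⟶ Y) (hl : l + X.dim = j + Y.dim) (h : IsTate G X j c) :
    IsTate G Y l (W.push f c) := by
  refine ⟨?_, ev_iff.1 ?_⟩
  · have h2 := W.push_mem f h.1
    have e1 : ((2 * j : ℕ) : ℤ) + 2 * ((Y.dim : ℤ) - X.dim) = ((2 * l : ℕ) : ℤ) := by
      push_cast; omega
    rw [e1, grZ_natCast] at h2
    exact h2
  · filter_upwards [h.ev, push_act (G := G) f] with g hg hg'
    apply smul_right_injective _ (chi_ne (G := G) g X.dim)
    change (G.χ g : W.K) ^ X.dim • G.act Y g (W.push f c) =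
      (G.χ g : W.K) ^ X.dim • (G.χ g : W.K) ^ l • W.push f c
    rw [hg', hg, map_smul, smul_smul, smul_smul, ← pow_add, ← pow_add]
    congr 2
    omega

end IsTate

/-- The Tate classes. -/
def galPred (G : GaloisAction W Γ) : ClassPred W where
  P := IsTate G
  gr := fun h => h.1
  zero := IsTate.zero
  add h h' := IsTate.add h h'
  smul r _ h := IsTate.smul r h
  cl hz := IsTate.cl hz
  mul h h' := IsTate.mul h h'
  map f _ _ h := IsTate.map f h
  push f _ _ hl _ h := IsTate.push f hl h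

/-! ### Degrees and duality -/

lemma tr_proj {l m : ℕ} (x : W.H X) {w : W.H X} (hw : w ∈ W.gr X m) (h : l + m = 2 * X.dim) :
    W.tr X (proj (W.isInternal X) l x * w) = W.tr X (x * w) := by
  refine gr_induction (W.isInternal X)
    (p := fun x => W.tr X (proj (W.isInternal X) l x * w) = W.tr X (x * w)) ?_ ?_ x
  · intro j b hb
    by_cases hj : j = l
    · subst hj; rw [proj_same _ hb]
    · rw [proj_ne _ hb hj, zero_mul, map_zero, W.tr_eq_zero (W.mul_mem hb hw) (by omega)]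
  · intro b b' hb hb'
    rw [map_add, add_mul, add_mul, map_add, map_add, hb, hb']

lemma tr_proj_ne {l m : ℕ} (x : W.H X) {w : W.H X} (hw : w ∈ W.gr X m) (h : l + m ≠ 2 * X.dim) :
    W.tr X (proj (W.isInternal X) l x * w) = 0 :=
  W.tr_eq_zero (W.mul_mem (proj_mem _ _ _) hw) h

/-- A class which is orthogonal to all degrees but one is homogeneous. -/
lemma gr_of_tr {l m : ℕ} {x : W.H X} (h : l + m = 2 * X.dim)
    (hx : ∀ i, i ≠ m → ∀ w ∈ W.gr X i, W.tr X (x * w) = 0) : x ∈ W.gr X l := by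
  have h1 : proj (W.isInternal X) l x = x := by
    apply W.tr_ext
    intro c
    refine gr_induction (W.isInternal X)
      (p := fun c => W.tr X (proj (W.isInternal X) l x * c) = W.tr X (x * c)) ?_ ?_ c
    · intro i w hw
      by_cases hi : i = m
      · subst hi; exact tr_proj x hw h
      · rw [hx i hi w hw, tr_proj_ne x hw (by omega)]
    · intro b b' hb hb'
      rw [mul_add, mul_add, map_add, map_add, hb, hb']
  rw [← h1]
  exact proj_mem _ _ _

/-- Poincare duality. -/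
lemma exists_dual (lam : W.H X →ₗ[W.K] W.K) : ∃ y : W.H X, ∀ a, W.tr X (y * a) = lam a := by
  let θ : W.H X →ₗ[W.K] (W.H X →ₗ[W.K] W.K) :=
    (LinearMap.mul W.K (W.H X)).compr₂ (W.tr X)
  have hθ : ∀ y a, θ y a = W.tr X (y * a) := fun _ _ => rfl
  have hinj : Function.Injective θ := by
    rw [injective_iff_map_eq_zero]
    intro y hy
    apply W.nondeg
    intro a
    rw [← hθ, hy]
    rfl
  have hsurj : Function.Surjective θ :=
    (LinearMap.injective_iff_surjective_of_finrank_eq_finrank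
      (Subspace.dual_finrank_eq (K := W.K) (V := W.H X)).symm).1 hinj
  obtain ⟨y, hy⟩ := hsurj lam
  exact ⟨y, fun a => by rw [← hθ, hy]⟩

/-- Every operator is given by a class. -/
lemma corr_surj (φ : W.H P →ₗ[W.K] W.H Q) : ∃ c : W.H (P.prod Q), W.corr c = φ := by
  have hinj : Function.Injective (Pool.Agent.Y133.Half.corrL W P Q) := by
    rw [injective_iff_map_eq_zero]
    intro c hc
    exact corr_inj hc
  have hdim : finrank W.K (W.H (P.prod Q)) = finrank W.K (W.H P →ₗ[W.K] W.H Q) := by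
    have e1 := (LinearEquiv.ofBijective _ (W.kunneth P Q)).finrank_eq
    rw [← e1, finrank_tensorProduct, finrank_linearMap]
  obtain ⟨c, hc⟩ := (LinearMap.injective_iff_surjective_of_finrank_eq_finrank hdim).1 hinj φ
  exact ⟨c, hc⟩

end Pool.Agent.U226.GT
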