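import Pool.Agent.U226.GT.Main
import Pool.Agent.U226.RG.RatFin
import Pool.Agent.U282.PL.Law

/-!
# The exact index of the algebraic classes in the Tate classes on the varieties `X ^ n × Z`
-/

set_option linter.unusedSectionVars false
set_option autoImplicit false

open CategoryTheory AlgebraicGeometry Filter Topology

open scoped ENNReal

universe u v

namespace Pool.Agent.U226.GT

open Module
open Pool.Agent.H914 Pool.Agent.H914.VarClass Pool.Agent.H914.VarClass.Obj
  Pool.Agent.H914.WeilCohomology Pool.Agent.H281R3.HT Pool.Agent.W536.RR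
open Pool.Agent.Y133.Half (pw ClassPred Sys algSys pwAdd algDim dimOf numDim_eq homEqNum_iff)
open Pool.Agent.Y133.Half.Sys (Nondeg)
open Pool.Agent.U226.RG (img img_alg img_pred algImage predImage img_mono nontrivial_pw)

variable {k : Type u} [Field k] {𝒱 : VarClass k} {ops : CycleOps 𝒱}
  {W : WeilCohomology.{u, v} ops} {Γ : Type} [Group Γ] {G : GaloisAction W Γ}
  {X Y Z P Q N : 𝒱.Obj}

/-- The dimension of the space spanned by the classes of algebraic cycles (of all codimensions) on
`Y`. -/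
noncomputable def algNumber (W : WeilCohomology.{u, v} ops) (Y : 𝒱.Obj) : ℕ := algDim W Y

/-- The dimension of the space spanned by the Tate classes (of all codimensions) on `Y`. -/
noncomputable def tateNumber (G : GaloisAction W Γ) (Y : 𝒱.Obj) : ℕ :=
  dimOf W {c : W.H Y | ∃ j, IsTate G Y j c}

/-- The dimension of `V_alg`. -/
noncomputable def algPart (W : WeilCohomology.{u, v} ops) (X Z : 𝒱.Obj) : ℕ :=
  dimOf W (Valg W X Z)

/-- The dimension of `V_Tate`. -/
noncomputable def tatePart (G : GaloisAction W Γ) (X Z : 𝒱.Obj) : ℕ :=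
  dimOf W (VTate G X Z)

/-- The quotients `t n / s n` converge to `N / d`, an element of `[0, ∞]`. -/
def QuotientsTendTo (t s : ℕ → ℕ) (N : ℕ∞) (d : ℕ) : Prop :=
  Tendsto (fun n => (t n : ℝ≥0∞) / s n) atTop (𝓝 ((N : ℝ≥0∞) / d))

/-- The rank of the group of the cycles (of all codimensions) on `Y` modulo numerical equivalence. -/
noncomputable def numRank (ops : CycleOps 𝒱) (Y : 𝒱.Obj) : ℕ := Pool.Agent.Y133.Half.cycRank ops Y

/-- The sum of the Betti numbers of `Z`. -/
noncomputable def bettiSum (W : WeilCohomology.{u, v} ops) (Z : 𝒱.Obj) : ℕ :=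
  dimOf W (Set.univ : Set (W.H Z))

lemma nondeg_alg (h : HomEqNum W Z) : Nondeg (algSys W) Z := by
  intro x hx hx'
  have h1 : x ∈ (algSys W).Num Z := ⟨hx, hx'⟩
  rw [(homEqNum_iff Z).1 h, Submodule.mem_bot] at h1
  exact h1

lemma Valg_eq (W : WeilCohomology.{u, v} ops) (X Z : 𝒱.Obj) :
    Valg W X Z = ↑(algImage W X Z) := by
  refine congrArg (fun S => (SetLike.coe (Submodule.span W.K S) : Set (W.H Z))) ?_
  ext y
  constructor
  · rintro ⟨n, j, _, ⟨z, hz, rfl⟩, a, rfl⟩
    exact ⟨n, j, z, hz, a, rfl⟩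
  · rintro ⟨n, j, z, hz, a, rfl⟩
    exact ⟨n, j, _, ⟨z, hz, rfl⟩, a, rfl⟩

/-- **The rational index**, without hypotheses. -/
theorem rational (G : GaloisAction W Γ) (X Z : 𝒱.Obj) (hX : Nontrivial (W.H X))
    (hZ : Nontrivial (W.H Z)) :
    ∃ (N : ℕ∞) (d : ℕ), 1 ≤ d ∧ d ≤ bettiSum W Z ∧ (d : ℕ∞) ≤ N ∧
      QuotientsTendTo (fun n => tateNumber G ((pw X n).prod Z))
        (fun n => numRank ops ((pw X n).prod Z)) N d ∧
      (N = d ↔ ∀ n, TateConjecture G ((pw X n).prod Z) ∧ HomEqNum W ((pw X n).prod Z)) ∧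
      (N ≠ ⊤ → (∀ n, HomEqNum W (pw X n)) ∧
        QuotientsTendTo (fun n => numRank ops ((pw X n).prod Z)) (fun n => numRank ops (pw X n))
          d 1) := by
  obtain ⟨N, d, h1, h2, h3, h4, h5, h6⟩ := Pool.Agent.U226.RG.rational_index (galPred G).sys
    (fun V => ClassPred.alg_le) X Z
  refine ⟨N, d, h1, ?_, h3, h4, ?_, ?_⟩
  · rw [bettiSum, dimOf, Set.finrank, Submodule.span_univ, finrank_top]
    exact h2
  · rw [h5]
    refine forall_congr' fun n => and_congr_left fun _ => ?_
    rw [tate_iff, eq_comm]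
  · intro hN
    obtain ⟨h7, h8⟩ := h6 hN
    refine ⟨h7, ?_⟩
    have hpos : ∀ n, 0 < numRank ops (pw X n) := by
      intro n
      have := nontrivial_pw (W := W) (X := X) n
      rw [numRank, (Pool.Agent.Y133.Half.homEqNum_iff' _).1 (h7 n)]
      exact Pool.Agent.U226.RG.finrank_C_pos (algSys W)
    have h10 := Pool.Agent.U282.PL.enn_of_real hpos h8
    simp only [QuotientsTendTo, Nat.cast_one, div_one]
    exact h10

/-- **The exact index.** -/
theorem index (G : GaloisAction W Γ) (hss : ∀ (Y : 𝒱.Obj) (j : ℕ), Semisimple G Y (2 * j))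
    (hnum : ∀ Y : 𝒱.Obj, HomEqNum W Y) (X Z : 𝒱.Obj) (hX : Nontrivial (W.H X))
    (hZ : Nontrivial (W.H Z)) :
    0 < algPart W X Z ∧ algPart W X Z ≤ tatePart G X Z ∧
    ∃ I : ℕ∞, 1 ≤ I ∧
      QuotientsTendTo (fun n => tateNumber G (pw X n)) (fun n => algNumber W (pw X n)) I 1 ∧
      (I = 1 ↔ ∀ n, TateConjecture G (pw X n)) ∧
      QuotientsTendTo (fun n => tateNumber G ((pw X n).prod Z))
        (fun n => algNumber W ((pw X n).prod Z)) (I * tatePart G X Z) (algPart W X Z) ∧
      (I * tatePart G X Z = algPart W X Z ↔ ∀ n, TateConjecture G ((pw X n).prod Z)) := by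
  have hS : ∀ V, Nondeg (algSys W) V := fun V => nondeg_alg (hnum V)
  have hT : ∀ V, Nondeg (galPred G).sys V := fun V => nondeg_of_ss (hss V)
  have hST : ∀ V, (algSys W).C V ≤ (galPred G).sys.C V := fun V => ClassPred.alg_le
  have e1 : algPart W X Z = finrank W.K (img (algSys W) X Z) := by
    have e : (img (algSys W) X Z) = algImage W X Z := img_alg
    rw [algPart, dimOf, Set.finrank, Valg_eq, Submodule.span_eq, e]
  have e2 : tatePart G X Z = finrank W.K (img (galPred G).sys X Z) := by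
    have e : (img (galPred G).sys X Z) = predImage (galPred G) X Z := img_pred (galPred G)
    have e' : VTate G X Z = (SetLike.coe (predImage (galPred G) X Z) : Set (W.H Z)) := rfl
    rw [tatePart, dimOf, Set.finrank, e', Submodule.span_eq, e]
  have e3 : ∀ V : 𝒱.Obj, algNumber W V = finrank W.K ((algSys W).C V) := fun V => algDim_eq' W V
  have e4 : ∀ V : 𝒱.Obj, tateNumber G V = finrank W.K ((galPred G).sys.C V) := fun V => rfl
  obtain ⟨I, h1, h2, h3, h4, h5⟩ := Pool.Agent.U282.PL.pair_law (X := X) (Z := Z) hS hT hST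
  refine ⟨?_, ?_, I, h1, ?_, ?_, ?_, ?_⟩
  · rw [e1]; exact Pool.Agent.U282.PL.img_pos _
  · rw [e1, e2]; exact Submodule.finrank_mono (img_mono hST)
  · simp only [QuotientsTendTo, e3, e4, Nat.cast_one, div_one]
    exact h2
  · rw [h3]
    refine forall_congr' fun n => ?_
    rw [tate_iff, eq_comm]
    rfl
  · simp only [QuotientsTendTo, e1, e2, e3, e4]
    exact h4
  · rw [e1, e2, h5]
    refine forall_congr' fun n => ?_
    rw [tate_iff, eq_comm]
    rfl

end Pool.Agent.U226.GT
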