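import Pool.Agent.U226.GT.Step

/-!
# The exact index of a module of equivariant maps
-/

set_option linter.unusedSectionVars false
set_option autoImplicit false

open CategoryTheory AlgebraicGeometry Filter Topology

universe u v

namespace Pool.Agent.U226.GT

open Module
open Pool.Agent.H914 Pool.Agent.H914.VarClass Pool.Agent.H914.VarClass.Obj
  Pool.Agent.H914.WeilCohomology Pool.Agent.H281R3.HT
open Pool.Agent.Y133.Half (pw ClassPred Sys algSys pwAdd)
open Pool.Agent.Y133.Half.Sys (mem_Op Nondeg Op.comp Op.id Op.corr)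
open Pool.Agent.U226.RG (post post_apply dd nontrivial_pw finrank_C_pos)

variable {k : Type u} [Field k] {𝒱 : VarClass k} {ops : CycleOps 𝒱}
  {W : WeilCohomology.{u, v} ops} {Γ : Type} [Group Γ] {G : GaloisAction W Γ}
  {X Y Z P Q N : 𝒱.Obj}

/-- The operators given by Tate classes with values in `V`. -/
noncomputable def into (G : GaloisAction W Γ) (N Z : 𝒱.Obj) (V : Submodule W.K (W.H Z)) :
    Submodule W.K (W.H N →ₗ[W.K] W.H Z) where
  carrier := {h | h ∈ (galPred G).sys.Op N Z ∧ ∀ a, h a ∈ V}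
  zero_mem' := ⟨Submodule.zero_mem _, fun a => by
    rw [LinearMap.zero_apply]; exact Submodule.zero_mem _⟩
  add_mem' := fun {h h'} hh hh' => ⟨Submodule.add_mem _ hh.1 hh'.1, fun a => by
    rw [LinearMap.add_apply]; exact Submodule.add_mem _ (hh.2 a) (hh'.2 a)⟩
  smul_mem' := fun r h hh => ⟨Submodule.smul_mem _ _ hh.1, fun a => by
    rw [LinearMap.smul_apply]; exact Submodule.smul_mem _ _ (hh.2 a)⟩

section

variable {V₁ : Submodule W.K (W.H Z)} {s₀ : ℤ} {g₀ : W.H Y →ₗ[W.K] W.H Z}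
  {e : Module.End W.K (W.H Y)} (D : StepData G V₁ s₀ g₀ e)

include D

lemma StepData.finrank_two : finrank W.K (V₁ ⊔ LinearMap.range g₀ : Submodule W.K (W.H Z)) =
    finrank W.K V₁ + finrank W.K (LinearMap.range e) := by
  set B := (LinearMap.range e).map g₀ with hB
  have h1 : V₁ ⊔ LinearMap.range g₀ = V₁ ⊔ B := by
    apply le_antisymm
    · refine sup_le le_sup_left ?_
      rintro _ ⟨b, rfl⟩
      have e1 : g₀ b = g₀ (b - e b) + g₀ (e b) := by rw [map_sub]; abel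
      rw [e1]
      exact Submodule.add_mem_sup (D.comp_mem b) ⟨e b, ⟨b, rfl⟩, rfl⟩
    · refine sup_le le_sup_left ?_
      rintro _ ⟨b, -, rfl⟩
      exact Submodule.mem_sup_right ⟨b, rfl⟩
  have h2 : V₁ ⊓ B = ⊥ := by
    rw [eq_bot_iff]
    rintro _ ⟨hx, ⟨_, ⟨b, rfl⟩, rfl⟩⟩
    have h3 := (D.ker (e b)).2 hx
    rw [D.idem] at h3
    rw [Submodule.mem_bot, h3, map_zero]
  have h3 := Submodule.finrank_sup_add_finrank_inf_eq V₁ B
  rw [h2, finrank_bot, add_zero, ← h1] at h3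
  have h4 : finrank W.K B = finrank W.K (LinearMap.range e) := by
    rw [hB, ← LinearMap.range_domRestrict]
    refine LinearMap.finrank_range_of_inj ?_
    rw [injective_iff_map_eq_zero]
    rintro ⟨_, ⟨b, rfl⟩⟩ h
    have h5 : g₀ (e b) = 0 := h
    have h6 := (D.ker (e b)).2 (by rw [h5]; exact Submodule.zero_mem _)
    rw [D.idem] at h6
    exact Subtype.ext h6
  rw [h3, h4]

lemma StepData.into_two (N : 𝒱.Obj) : into G N Z (V₁ ⊔ LinearMap.range g₀) =
    into G N Z V₁ ⊔ (((galPred G).sys.Op N Y).map (post N e)).map (post N g₀) := by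
  obtain ⟨ψ, hψ⟩ := D.exists_psi
  apply le_antisymm
  · rintro h ⟨hh, hV⟩
    have h1 := D.lift_op hψ hh hV
    have e1 : h = (h - g₀ ∘ₗ (ψ ∘ₗ h)) + g₀ ∘ₗ (ψ ∘ₗ h) := by abel
    rw [e1]
    refine Submodule.add_mem_sup ⟨Submodule.sub_mem _ hh (Op.comp D.tw.mem_Op h1), fun a => ?_⟩ ?_
    · exact (D.psi_val hψ (hV a)).2
    · refine ⟨ψ ∘ₗ h, ⟨ψ ∘ₗ h, h1, ?_⟩, rfl⟩
      apply LinearMap.ext
      intro a
      exact (D.psi_val hψ (hV a)).1
  · refine sup_le ?_ ?_
    · rintro h ⟨hh, hV⟩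
      exact ⟨hh, fun a => Submodule.mem_sup_left (hV a)⟩
    · rintro _ ⟨_, ⟨w, hw, rfl⟩, rfl⟩
      exact ⟨Op.comp D.tw.mem_Op (Op.comp D.etw.mem_Op hw),
        fun a => Submodule.mem_sup_right ⟨e (w a), rfl⟩⟩

lemma StepData.finrank_into (N : 𝒱.Obj) :
    finrank W.K (into G N Z (V₁ ⊔ LinearMap.range g₀)) =
      finrank W.K (into G N Z V₁) + dd (galPred G).sys e N := by
  rw [D.into_two]
  set A := into G N Z V₁ with hA
  set E := ((galPred G).sys.Op N Y).map (post N e) with hE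
  have key : ∀ x ∈ E, (∀ a, g₀ (x a) ∈ V₁) → x = 0 := by
    rintro _ ⟨w, -, rfl⟩ h
    apply LinearMap.ext
    intro a
    have h1 := (D.ker (e (w a))).2 (h a)
    rw [D.idem] at h1
    exact h1
  have h2 : A ⊓ E.map (post N g₀) = ⊥ := by
    rw [eq_bot_iff]
    rintro _ ⟨hx, ⟨x, hxE, rfl⟩⟩
    have := key x hxE (fun a => hx.2 a)
    rw [this, Submodule.mem_bot, map_zero]
  have h3 := Submodule.finrank_sup_add_finrank_inf_eq A (E.map (post N g₀))
  rw [h2, finrank_bot, add_zero] at h3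
  have h4 : finrank W.K (E.map (post N g₀)) = finrank W.K E := by
    rw [← LinearMap.range_domRestrict]
    refine LinearMap.finrank_range_of_inj ?_
    rw [injective_iff_map_eq_zero]
    rintro ⟨x, hx⟩ h
    have h5 : g₀ ∘ₗ x = 0 := h
    refine Subtype.ext (key x hx fun a => ?_)
    have h6 : g₀ (x a) = 0 := congrArg (fun F => F a) h5
    rw [h6]
    exact Submodule.zero_mem _
  rw [h3, h4, dd]

end

/-- **The exact index.** -/
theorem exact [Nontrivial (W.H X)]
    (hss : ∀ n, Semisimple G ((pw X n).prod (pw X n)) (2 * (pw X n).dim))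
    (hP : ∀ n, Nondeg (galPred G).sys (pw X n))
    (heq : ∀ n, algSpan W (pw X n) = (galPred G).sys.C (pw X n))
    (Z : 𝒱.Obj) (M : ∀ n, Submodule W.K (W.H (pw X n) →ₗ[W.K] W.H Z))
    (hM : ∀ n, M n ≤ (galPred G).sys.Op (pw X n) Z)
    (hst : ∀ m n, ∀ u ∈ (galPred G).sys.Op (pw X m) (pw X n), ∀ g ∈ M n, g ∘ₗ u ∈ M m)
    (hgen : ∀ n, ∀ V : Submodule W.K (W.H Z),
      (∀ s : ℤ, ∀ h ∈ M n, IsTw G s h → ∀ a, h a ∈ V) → ∀ h ∈ M n, ∀ a, h a ∈ V) :
    (∀ n, into G (pw X n) Z (⨆ n, ⨆ g : M n,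
      LinearMap.range (g : W.H (pw X n) →ₗ[W.K] W.H Z)) = M n) ∧
    Tendsto (fun n => (finrank W.K (M n) : ℝ) / finrank W.K ((galPred G).sys.C (pw X n))) atTop
      (𝓝 (finrank W.K (⨆ n, ⨆ g : M n,
        LinearMap.range (g : W.H (pw X n) →ₗ[W.K] W.H Z) : Submodule W.K (W.H Z)) : ℝ)) := by
  classical
  set V := ⨆ n, ⨆ g : M n, LinearMap.range (g : W.H (pw X n) →ₗ[W.K] W.H Z) with hV
  have hVmem : ∀ n, ∀ g ∈ M n, LinearMap.range g ≤ V := by
    intro n g hg
    exact le_iSup_of_le n (le_iSup_of_le ⟨g, hg⟩ le_rfl)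
  have hST : ∀ U, algSpan W U ≤ (galPred G).sys.C U := fun U => ClassPred.alg_le
  let R : Submodule W.K (W.H Z) → Prop := fun V₁ => Gr W V₁ ∧ Stable G V₁ ∧ V₁ ≤ V ∧
    (∀ n, into G (pw X n) Z V₁ ≤ M n) ∧
    Tendsto (fun n => (finrank W.K (into G (pw X n) Z V₁) : ℝ) /
      finrank W.K ((galPred G).sys.C (pw X n))) atTop (𝓝 (finrank W.K V₁ : ℝ))
  have hR0 : R ⊥ := by
    have h0 : ∀ n, into G (pw X n) Z (⊥ : Submodule W.K (W.H Z)) = ⊥ := by
      intro n
      rw [eq_bot_iff]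
      rintro h ⟨-, h'⟩
      rw [Submodule.mem_bot]
      exact LinearMap.ext fun a => (Submodule.mem_bot _).1 (h' a)
    refine ⟨?_, ?_, bot_le, fun n => by rw [h0]; exact bot_le, ?_⟩
    · intro i a ha
      rw [(Submodule.mem_bot _).1 ha, map_zero]
      exact Submodule.zero_mem _
    · exact Eventually.of_forall fun g a ha => by
        rw [(Submodule.mem_bot _).1 ha, map_zero]
        exact Submodule.zero_mem _
    · have e : ∀ n, (0 : ℝ) = (finrank W.K (into G (pw X n) Z (⊥ : Submodule W.K (W.H Z))) : ℝ) /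
          finrank W.K ((galPred G).sys.C (pw X n)) := by
        intro n
        rw [h0, finrank_bot, Nat.cast_zero, zero_div]
      rw [finrank_bot, Nat.cast_zero]
      exact Tendsto.congr e tendsto_const_nhds
  let Q : ℕ → Prop := fun r => ∃ V₁, R V₁ ∧ finrank W.K V₁ = r
  have hQ0 : Q 0 := ⟨⊥, hR0, finrank_bot _ _⟩
  have hQb : ∀ r, Q r → r ≤ finrank W.K (W.H Z) := by
    rintro r ⟨V₁, -, rfl⟩
    exact Submodule.finrank_le _
  set r₀ := Nat.findGreatest Q (finrank W.K (W.H Z)) with hr₀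
  obtain ⟨V₁, ⟨hgr, hstb, hle, hinto, hlim⟩, hr⟩ : Q r₀ :=
    Nat.findGreatest_spec (P := Q) (Nat.zero_le _) hQ0
  have hmax : ∀ r, Q r → r ≤ r₀ := fun r hr => Nat.le_findGreatest (hQb r hr) hr
  have hV₁ : V₁ = V := by
    by_contra hne
    obtain ⟨n, s, g₀, hg₀, htw, a, ha⟩ : ∃ n, ∃ s : ℤ, ∃ h ∈ M n, IsTw G s h ∧ ∃ a, h a ∉ V₁ := by
      by_contra hcon
      push Not at hcon
      apply hne
      apply le_antisymm hle
      rw [hV]
      apply iSup_le
      intro n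
      apply iSup_le
      rintro ⟨g, hg⟩
      rintro _ ⟨a, rfl⟩
      exact hgen n V₁ (fun s h hh hhtw a => hcon n s h hh hhtw a) g hg a
    obtain ⟨e, D⟩ := exists_stepData (hss n) hgr hstb htw
    have he : e ∈ (galPred G).sys.Op (pw X n) (pw X n) := D.etw.mem_Op
    have he0 : e ≠ 0 := by
      intro h
      apply ha
      rw [← D.ker, h, LinearMap.zero_apply]
    have hQ' : Q (finrank W.K V₁ + finrank W.K (LinearMap.range e)) := by
      refine ⟨V₁ ⊔ LinearMap.range g₀, ⟨hgr.sup htw.shift.range_gr, hstb.sup htw.range_stable,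
        sup_le hle (hVmem n g₀ hg₀), ?_, ?_⟩, D.finrank_two⟩
      · intro m
        rw [D.into_two]
        refine sup_le (hinto m) ?_
        rintro _ ⟨_, ⟨w, hw, rfl⟩, rfl⟩
        exact hst m n _ (Op.comp he hw) g₀ hg₀
      · have h1 := hlim.add (tendsto_dd hP heq hST he D.e_comp)
        rw [D.finrank_two]
        push_cast
        refine h1.congr fun m => ?_
        rw [D.finrank_into]
        push_cast
        rw [add_div]
    have h1 := hmax _ hQ'
    have h2 := Pool.Agent.Y133.Half.Sys.finrank_range_pos he0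
    omega
  rw [hV₁] at hinto hlim
  have h1 : ∀ n, into G (pw X n) Z V = M n := by
    intro n
    refine le_antisymm (hinto n) ?_
    intro h hh
    exact ⟨hM n hh, fun a => hVmem n h hh ⟨a, rfl⟩⟩
  refine ⟨h1, ?_⟩
  refine hlim.congr fun n => ?_
  rw [h1]

end Pool.Agent.U226.GT
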