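import Pool.Agent.U226.GT.Ind
import Pool.Agent.U226.RG.ShareP
import Pool.Agent.Y133.Half.TateSS

/-!
# The exact share of the algebraic classes among the Tate classes
-/

set_option linter.unusedSectionVars false
set_option autoImplicit false

open CategoryTheory AlgebraicGeometry Filter Topology

universe u v

namespace Pool.Agent.U226.GT

open Module
open Pool.Agent.H914 Pool.Agent.H914.VarClass Pool.Agent.H914.VarClass.Obj
  Pool.Agent.H914.WeilCohomology Pool.Agent.H281R3.HT Pool.Agent.W536.RR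
open Pool.Agent.Y133.Half (pw ClassPred Sys algSys pwAdd algDim dimOf numDim_eq homEqNum_iff)
open Pool.Agent.Y133.Half.Sys (mem_Op Nondeg Op.comp Op.id Op.corr)
open Pool.Agent.U226.RG (post post_apply dd nontrivial_pw finrank_C_pos img img_alg img_pred
  algImage predImage C_eq_iso finrank_Op nontrivial_prod fixed_law img_mono)

variable {k : Type u} [Field k] {𝒱 : VarClass k} {ops : CycleOps 𝒱}
  {W : WeilCohomology.{u, v} ops} {Γ : Type} [Group Γ] {G : GaloisAction W Γ}
  {X Y Z P Q N : 𝒱.Obj}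

lemma span_eq (V : 𝒱.Obj) (j : ℕ) : spanCycles W V j =
    Submodule.span W.K (algClasses W V j) := by
  apply le_antisymm
  · refine Submodule.span_mono ?_
    rintro _ ⟨p, hp, z, hz, rfl⟩
    obtain rfl : p = j := by exact_mod_cast hp
    exact ⟨z, hz, rfl⟩
  · refine Submodule.span_mono ?_
    rintro _ ⟨z, hz, rfl⟩
    exact ⟨j, rfl, z, hz, rfl⟩

lemma tate_iff (V : 𝒱.Obj) : TateConjecture G V ↔ algSpan W V = (galPred G).sys.C V := by
  rw [eq_comm, ClassPred.sp_eq_iff (Q := galPred G) V]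
  simp only [span_eq]
  exact ⟨fun h j c hc => h j c hc.1 hc.2, fun h j c h1 h2 => h j c ⟨h1, h2⟩⟩

lemma stable_alg' (heq : ∀ n, algSpan W (pw X n) = (galPred G).sys.C (pw X n)) (m n : ℕ)
    (u : W.H (pw X m) →ₗ[W.K] W.H (pw X n))
    (hu : u ∈ (galPred G).sys.Op (pw X m) (pw X n)) (g : W.H (pw X n) →ₗ[W.K] W.H Z)
    (hg : g ∈ (algSys W).Op (pw X n) Z) : g ∘ₗ u ∈ (algSys W).Op (pw X m) Z := by
  obtain ⟨c, hc, rfl⟩ := mem_Op.1 hu
  have h1 : (algSys W).C ((pw X m).prod (pw X n)) =
      (galPred G).sys.C ((pw X m).prod (pw X n)) :=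
    C_eq_iso (S := algSys W) (fun V => ClassPred.alg_le) (pwAdd X m n) (heq _)
  rw [← h1] at hc
  exact Op.comp hg (Op.corr hc)

/-- **The exact share.** -/
theorem gal_share [Nontrivial (W.H X)] [Nontrivial (W.H Z)] (hQ : ∀ n, Q1 G (pw X n)) :
    Tendsto (fun n => (finrank W.K (algSpan W ((pw X n).prod Z)) : ℝ) /
      finrank W.K ((galPred G).sys.C ((pw X n).prod Z))) atTop
      (𝓝 ((finrank W.K (algImage W X Z) : ℝ) / finrank W.K (predImage (galPred G) X Z))) ∧
    algImage W X Z ≤ predImage (galPred G) X Z ∧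
    0 < finrank W.K (predImage (galPred G) X Z) ∧
    ((∀ n, TateConjecture G ((pw X n).prod Z)) ↔
      algImage W X Z = predImage (galPred G) X Z) := by
  set T := (galPred G).sys with hT
  have hST : ∀ V, algSpan W V ≤ T.C V := fun V => ClassPred.alg_le
  have heq : ∀ n, algSpan W (pw X n) = T.C (pw X n) := fun n => (tate_iff _).1 (hQ n).2
  have hP : ∀ n, Nondeg T (pw X n) := fun n => nondeg_of_ss (hQ n).1
  have hss : ∀ n, Semisimple G ((pw X n).prod (pw X n)) (2 * (pw X n).dim) := fun n =>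
    Semisimple.iso (pwAdd X n n).symm ((hQ (n + n + 1)).1 _)
  have hle : ∀ A B : 𝒱.Obj, (algSys W).Op A B ≤ T.Op A B := fun A B => Submodule.map_mono (hST _)
  have hT1 := exact (X := X) hss hP heq Z (fun n => T.Op (pw X n) Z) (fun n => le_rfl)
    (fun m n u hu g hg => Op.comp hg hu) (by
      intro n V h f hf
      refine Op_ind (q := fun f => ∀ a, f a ∈ V) ?_ ?_ ?_ hf
      · intro s φ hφ
        exact h s φ hφ.mem_Op hφ
      · intro a
        rw [LinearMap.zero_apply]
        exact Submodule.zero_mem _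
      · intro φ ψ h1 h2 a
        rw [LinearMap.add_apply]
        exact Submodule.add_mem _ (h1 a) (h2 a))
  have hS1 := exact (X := X) hss hP heq Z (fun n => (algSys W).Op (pw X n) Z) (fun n => hle _ _)
    (stable_alg' heq) (by
      intro n V h f hf
      obtain ⟨c, hc, rfl⟩ := mem_Op.1 hf
      refine algSpan_induction (p := fun c => ∀ a, W.corr c a ∈ V) ?_ ?_ ?_ ?_ hc
      · intro a
        rw [corr_zero, LinearMap.zero_apply]
        exact Submodule.zero_mem _
      · intro c d h1 h2 a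
        rw [corr_add, LinearMap.add_apply]
        exact Submodule.add_mem _ (h1 a) (h2 a)
      · intro r c h1 a
        rw [corr_smul, LinearMap.smul_apply]
        exact Submodule.smul_mem _ _ (h1 a)
      · intro j z hz
        have h1 : W.cl _ z ∈ (algSys W).C ((pw X n).prod Z) :=
          Submodule.subset_span (Set.mem_iUnion.2 ⟨j, z, hz, rfl⟩)
        exact h _ _ (Op.corr h1) (IsTate.tw (G := G) (IsTate.cl hz)))
  have eT : (⨆ n, ⨆ g : T.Op (pw X n) Z, LinearMap.range (g : W.H (pw X n) →ₗ[W.K] W.H Z)) =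
      predImage (galPred G) X Z := img_pred (galPred G)
  have eS : (⨆ n, ⨆ g : (algSys W).Op (pw X n) Z,
      LinearMap.range (g : W.H (pw X n) →ₗ[W.K] W.H Z)) = algImage W X Z := img_alg
  rw [eT] at hT1
  rw [eS] at hS1
  have hmono : algImage W X Z ≤ predImage (galPred G) X Z := by
    rw [← img_alg, ← img_pred]
    exact img_mono hST
  have hpos : 0 < finrank W.K (predImage (galPred G) X Z) := by
    rw [Nat.pos_iff_ne_zero]
    intro h
    have h0 : predImage (galPred G) X Z = ⊥ := Submodule.finrank_eq_zero.1 h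
    have h1 : T.Op X Z = ⊥ := by
      rw [eq_bot_iff]
      intro g hg
      rw [Submodule.mem_bot]
      apply LinearMap.ext
      intro a
      have h2 : g a ∈ predImage (galPred G) X Z := by
        rw [← eT]
        exact Submodule.mem_iSup_of_mem 0 (Submodule.mem_iSup_of_mem ⟨g, hg⟩ ⟨a, rfl⟩)
      rw [h0, Submodule.mem_bot] at h2
      exact h2
    have h2 := finrank_Op T X Z
    rw [h1, finrank_bot] at h2
    have : Nontrivial (W.H (X.prod Z)) := nontrivial_prod
    have h3 := finrank_C_pos (Z := X.prod Z) T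
    omega
  have hpos' : (0 : ℝ) < finrank W.K (predImage (galPred G) X Z) := by exact_mod_cast hpos
  refine ⟨?_, hmono, hpos, ?_⟩
  · have h1 := hS1.2.div hT1.2 hpos'.ne'
    refine h1.congr fun n => ?_
    have h2 : (finrank W.K (T.C (pw X n)) : ℝ) ≠ 0 := by
      have := nontrivial_pw (W := W) (X := X) n
      have h3 := finrank_C_pos (Z := pw X n) T
      exact_mod_cast h3.ne'
    change (finrank W.K ((algSys W).Op (pw X n) Z) : ℝ) / finrank W.K (T.C (pw X n)) /
      ((finrank W.K (T.Op (pw X n) Z) : ℝ) / finrank W.K (T.C (pw X n))) = _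
    rw [div_div_div_cancel_right₀ h2, finrank_Op, finrank_Op]
    rfl
  · simp only [tate_iff]
    constructor
    · intro h
      rw [← eT, ← eS]
      have h1 : ∀ n, (algSys W).Op (pw X n) Z = T.Op (pw X n) Z := by
        intro n
        have h2 : (algSys W).C ((pw X n).prod Z) = T.C ((pw X n).prod Z) := h n
        rw [Sys.Op, Sys.Op, h2]
      congr 1
      funext n
      rw [h1 n]
    · intro h n
      have h2 : (algSys W).Op (pw X n) Z = T.Op (pw X n) Z := by
        rw [← hS1.1 n, ← hT1.1 n, h]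
      have h5 : finrank W.K ((algSys W).Op (pw X n) Z) = finrank W.K (T.Op (pw X n) Z) := by
        rw [h2]
      rw [finrank_Op, finrank_Op] at h5
      exact Submodule.eq_of_le_of_finrank_eq (hST _) h5

lemma algDim_eq' (W : WeilCohomology.{u, v} ops) (X : 𝒱.Obj) :
    algDim W X = finrank W.K (algSpan W X) := by
  have h : Submodule.span W.K (Pool.Agent.Y133.Half.algSet W X) = algSpan W X := by
    apply le_antisymm
    · refine Submodule.span_le.2 ?_
      rintro c ⟨j, z, hz, rfl⟩
      exact Submodule.subset_span (Set.mem_iUnion.2 ⟨j, z, hz, rfl⟩)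
    · refine Submodule.span_le.2 ?_
      intro c hc
      obtain ⟨j, z, hz, rfl⟩ := Set.mem_iUnion.1 hc
      exact Submodule.subset_span ⟨j, z, hz, rfl⟩
  rw [algDim, dimOf, Set.finrank, h]

lemma t_eq (X Z : 𝒱.Obj) (n : ℕ) :
    t G X Z n = finrank W.K ((galPred G).sys.C ((pw X n).prod Z)) := rfl

theorem share (G : GaloisAction W Γ) (X Z : 𝒱.Obj) (hX : Nontrivial (W.H X))
    (hZ : Nontrivial (W.H Z)) (hQ : ∀ n, Q1 G (pw X n)) :
    Valg W X Z ⊆ VTate G X Z ∧ ShareFormula G X Z ∧
      ((∀ n, TateConjecture G ((pw X n).prod Z)) ↔ Valg W X Z = VTate G X Z) := by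
  have e1 : Valg W X Z = ↑(algImage W X Z) := by
    refine congrArg (fun S => (SetLike.coe (Submodule.span W.K S) : Set (W.H Z))) ?_
    ext y
    constructor
    · rintro ⟨n, j, _, ⟨z, hz, rfl⟩, a, rfl⟩
      exact ⟨n, j, z, hz, a, rfl⟩
    · rintro ⟨n, j, z, hz, a, rfl⟩
      exact ⟨n, j, _, ⟨z, hz, rfl⟩, a, rfl⟩
  have e2 : VTate G X Z = (SetLike.coe (predImage (galPred G) X Z) : Set (W.H Z)) := rfl
  have e3 : dimOf W (Valg W X Z) = finrank W.K (algImage W X Z) := by
    rw [e1, dimOf, Set.finrank, Submodule.span_eq]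
  have e4 : dimOf W (VTate G X Z) = finrank W.K (predImage (galPred G) X Z) := by
    rw [e2, dimOf, Set.finrank, Submodule.span_eq]
  obtain ⟨h1, h2, h3, h4⟩ := gal_share (Z := Z) hQ
  refine ⟨by rw [e1]; exact h2, ⟨by rw [e4]; exact h3, ?_⟩, ?_⟩
  · rw [e3, e4]
    refine h1.congr fun n => ?_
    rw [a, t_eq, algDim_eq']
  · rw [h4, e1]
    exact (SetLike.coe_set_eq (p := algImage W X Z)).symm

theorem gap (G : GaloisAction W Γ) (X Z : 𝒱.Obj) :
    (∀ n, TateConjecture G ((pw X n).prod Z) ∧ HomEqNum W ((pw X n).prod Z)) ∨ Gap G X Z := by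
  have h := fixed_law (S := algSys W) (T := (galPred G).sys) (fun V => ClassPred.alg_le) X Z
  rcases h with h | h
  · left
    intro n
    exact ⟨(tate_iff _).2 (h n).1, (homEqNum_iff _).2 (h n).2⟩
  · right
    intro ε hε
    obtain ⟨n₀, hn₀⟩ := h ε hε
    refine ⟨n₀, fun n hn => ?_⟩
    have h1 := hn₀ n hn
    rw [← numDim_eq] at h1
    rw [show dimOf W (Set.univ : Set (W.H Z)) = finrank W.K (W.H Z) by
      rw [dimOf, Set.finrank, Submodule.span_univ, finrank_top]]
    exact h1

end Pool.Agent.U226.GT
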