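import Pool.Agent.U226.RG.Exact

/-!
# Idempotents on the powers of a variety, if the pairing is nondegenerate on the powers
-/

set_option linter.unusedSectionVars false
set_option autoImplicit false

open CategoryTheory AlgebraicGeometry Filter Topology

universe u v

namespace Pool.Agent.U226.GT

open Module Polynomial
open Pool.Agent.H914 Pool.Agent.H914.VarClass Pool.Agent.H914.VarClass.Obj
  Pool.Agent.H914.WeilCohomology Pool.Agent.H281R3.HT Pool.Agent.Y133.Half.Sys
  Pool.Agent.U226.RG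
open Pool.Agent.Y133.Half (Sys pw cycRank algDim algDim_eq mem_algNum numDim_eq_cycRank algSys
  numTrivial dimOf numTrivial_eq pwAdd finrank_pw prodComm prodCongr xp_eq_zero_left xp
  homEqNum_iff rk rk_comp_le tr_xp Ev exists_fit finrank_extOp ratio_dichotomy swap_swap)

variable {k : Type u} [Field k] {𝒱 : VarClass k} {ops : CycleOps 𝒱}
  {W : WeilCohomology.{u, v} ops} {X Y Z P Q N : 𝒱.Obj} {T : Sys W}

lemma num_eq_bot (h : Nondeg T X) : T.Num X = ⊥ := by
  rw [eq_bot_iff]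
  rintro x ⟨hx, hx'⟩
  exact h x hx hx'

lemma nondeg_of_num (h : T.Num X = ⊥) : Nondeg T X := by
  intro x hx hx'
  have : x ∈ T.Num X := ⟨hx, hx'⟩
  rw [h, Submodule.mem_bot] at this
  exact this

lemma nondeg_iso (φ : X ≅ Y) (h : Nondeg T X) : Nondeg T Y := by
  apply nondeg_of_num
  have h1 := T.a_add_num X
  have h2 := T.a_add_num Y
  rw [num_eq_bot h, finrank_bot, add_zero] at h1
  rw [← T.a_iso φ, ← T.finrank_C_iso φ, ← h1] at h2
  exact Submodule.finrank_eq_zero.1 (by omega)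

section

variable [Nontrivial (W.H X)] (hP : ∀ n, Nondeg T (pw X n))
  (heq : ∀ n, algSpan W (pw X n) = T.C (pw X n))

include hP

lemma nondeg_two (m n : ℕ) : Nondeg T ((pw X m).prod (pw X n)) :=
  nondeg_iso (pwAdd X m n).symm (hP _)

include heq

lemma t_eq' (n : ℕ) : finrank W.K (T.C (pw X n)) = cycRank ops (pw X n) := by
  have h1 : (algSys W).C (pw X n) = T.C (pw X n) := heq n
  rw [← numDim_eq_cycRank W, ← a_eq_finrank (hP _), ← a_eq_of h1]

lemma num_bot' (n : ℕ) : (algSys W).Num (pw X n) = ⊥ := by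
  rw [eq_bot_iff]
  rintro x ⟨hx, hx'⟩
  have h1 : (algSys W).C (pw X n) = T.C (pw X n) := heq n
  rw [h1] at hx hx'
  exact hP _ x hx hx'

/-- The quotients of the numbers of classes tend to the Betti number. -/
theorem tendsto_b' (hST : ∀ V, algSpan W V ≤ T.C V) :
    Tendsto (fun n => (finrank W.K (T.C (pw X (n + 1))) : ℝ) / finrank W.K (T.C (pw X n))) atTop
      (𝓝 (finrank W.K (W.H X) : ℝ)) := by
  set b := finrank W.K (W.H X) with hb
  obtain ⟨N, d, -, hdb, -, -, h5, h6⟩ := rational_index (algSys W) (fun _ => le_rfl) X X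
  have hN : N = d := h5.2 fun n => ⟨rfl, (homEqNum_iff _).2 (num_bot' hP heq (n + 1))⟩
  have h7 := (h6 (by rw [hN]; exact ENat.coe_ne_top d)).2
  have h8 : Tendsto (fun n => (finrank W.K (T.C (pw X (n + 1))) : ℝ) /
      finrank W.K (T.C (pw X n))) atTop (𝓝 (d : ℝ)) := by
    refine h7.congr fun n => ?_
    rw [t_eq' hP heq, t_eq' hP heq]
    rfl
  have hX : 0 < b := Module.finrank_pos
  obtain ⟨l, hl, hl1⟩ : ∃ l ∈ (algSys W).C X, W.tr X l = 1 := by
    have h1X : (1 : W.H X) ≠ 0 := one_ne_zero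
    obtain ⟨l', hl', hl'0⟩ : ∃ l' ∈ (algSys W).C X, W.tr X l' ≠ 0 := by
      by_contra hcon
      push Not at hcon
      apply h1X
      apply hP 0 1 (T.one X)
      intro y hy
      rw [one_mul]
      have h2 : (algSys W).C X = T.C X := heq 0
      have hy' : y ∈ T.C X := hy
      rw [← h2] at hy'
      exact hcon y hy'
    exact ⟨(W.tr X l')⁻¹ • l', Submodule.smul_mem _ _ hl', by
      rw [map_smul, smul_eq_mul, inv_mul_cancel₀ hl'0]⟩
  have hpos : ∀ n, 0 < (algSys W).al X n := by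
    intro n
    obtain ⟨m, hm, hm1⟩ := (algSys W).exists_lam hl hl1 n
    refine (algSys W).a_pos (xp_mem_C (algSys W) hm hm) ?_
    rw [tr_xp, hm1, mul_one]
  have hB : ∀ c : ℝ, 0 ≤ c → c < (b : ℝ) ^ 2 → ∃ l₀, ∀ l ≥ l₀,
      c * (algSys W).al X l ≤ (algSys W).al X (l + 1) := by
    rcases ratio_dichotomy hpos ((algSys W).al_convex X) ((b : ℝ) ^ 2) with ⟨c, hc, hcB, h⟩ | hB
    · exfalso
      obtain ⟨n₀, hn₀⟩ := small_of (T := T) hc hcB h hX (ε := 1 / 2) (by positivity)
      have h2 := hn₀ n₀ le_rfl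
      have h3 : (algSys W).C (pw X n₀) = T.C (pw X n₀) := heq n₀
      rw [a_eq_of h3, a_eq_finrank (hP _)] at h2
      obtain ⟨m, hm, hm1⟩ := T.exists_lam (hST _ hl) hl1 n₀
      have h3 := T.a_pos hm hm1
      rw [a_eq_finrank (hP _)] at h3
      have h4 : (0 : ℝ) < finrank W.K (T.C (pw X n₀)) := by exact_mod_cast h3
      linarith
    · exact hB
  have hal : ∀ l, (algSys W).al X l = finrank W.K (T.C (pw X (l + l + 1))) := by
    intro l
    rw [t_eq' hP heq, ← numDim_eq_cycRank W]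
    exact (algSys W).a_iso (pwAdd X l l)
  have htpos : ∀ n, 0 < finrank W.K (T.C (pw X n)) := by
    intro n
    have := nontrivial_pw (W := W) (X := X) n
    exact finrank_C_pos T
  have hd : (d : ℝ) = b := by
    apply le_antisymm (by exact_mod_cast hdb)
    by_contra hcon
    push Not at hcon
    have hd2 : (d : ℝ) ^ 2 < (b : ℝ) ^ 2 := by
      have : (0 : ℝ) ≤ d := Nat.cast_nonneg d
      nlinarith
    obtain ⟨c, hc1, hc2⟩ := exists_between hd2
    have hc0 : 0 ≤ c := (sq_nonneg _).trans hc1.le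
    obtain ⟨l₀, hl₀⟩ := hB c hc0 hc2
    have h9 := tendsto_shift htpos h8 2
    have hsub : Tendsto (fun l : ℕ => l + l + 1) atTop atTop :=
      tendsto_atTop_mono (fun n => by simp only [id]; omega) tendsto_id
    have h10 := h9.comp hsub
    have h11 : c ≤ (d : ℝ) ^ 2 := by
      refine ge_of_tendsto h10 (eventually_atTop.2 ⟨l₀, fun l hl => ?_⟩)
      change c ≤ (finrank W.K (T.C (pw X (l + l + 1 + 2))) : ℝ) /
        finrank W.K (T.C (pw X (l + l + 1)))
      rw [le_div_iff₀ (by exact_mod_cast htpos _)]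
      have h12 := hl₀ l hl
      rw [hal, hal] at h12
      have e : l + 1 + (l + 1) + 1 = l + l + 1 + 2 := by omega
      rw [e] at h12
      exact h12
    linarith
  rw [hd] at h8
  exact h8

omit heq in
/-- The bound by the rank. -/
lemma dd_le_rank' {q m₀ l n : ℕ} {f : Module.End W.K (W.H (pw X q))}
    (hf : f ∈ T.Op (pw X q) (pw X q)) (hff : f ∘ₗ f = f)
    (θ : (pw X m₀).prod ((pw X l).prod (pw X l)) ≅ pw X n) :
    dd T f (pw X n) ≤ finrank W.K (LinearMap.range f) * finrank W.K (W.H (pw X m₀)) *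
      T.a ((pw X l).prod (pw X l)) := by
  rw [← dd_eq_r (nondeg_two hP n q) hf, ← T.r_iso f θ, ← T.r_assoc f]
  have h1 : (1 : Module.End W.K (W.H (pw X m₀))) ∘ₗ 1 = 1 := rfl
  have h2 : extOp W f (1 : Module.End W.K (W.H (pw X m₀))) ∘ₗ extOp W f 1 = extOp W f 1 := by
    have := extOp_mul (W := W) f f (1 : Module.End W.K (W.H (pw X m₀))) 1
    change extOp W f 1 * extOp W f 1 = _
    rw [this, mul_one]
    change extOp W (f ∘ₗ f) 1 = _
    rw [hff]
  have h3 := T.r_le_rank (g := extOp W f (1 : Module.End W.K (W.H (pw X m₀))))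
    (Op.ext hf Op.id) h2 (pw X l)
  rw [finrank_extOp hff h1, rank_one] at h3
  exact h3

variable (hST : ∀ V, algSpan W V ≤ T.C V)

include hST

/-- The upper bound. -/
lemma dd_up' {q : ℕ} {f : Module.End W.K (W.H (pw X q))} (hf : f ∈ T.Op (pw X q) (pw X q))
    (hff : f ∘ₗ f = f) {ε : ℝ}
    (hε : 0 < ε) : ∃ n₀ : ℕ, ∀ n ≥ n₀, (dd T f (pw X n) : ℝ) ≤
      (finrank W.K (LinearMap.range f) + ε) * finrank W.K (T.C (pw X n)) := by
  set b := finrank W.K (W.H X) with hb
  set r := finrank W.K (LinearMap.range f) with hr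
  have hX : 0 < b := Module.finrank_pos
  have hb0 : (0 : ℝ) < b := by exact_mod_cast hX
  have htpos : ∀ n, 0 < finrank W.K (T.C (pw X n)) := by
    intro n
    have := nontrivial_pw (W := W) (X := X) n
    exact finrank_C_pos T
  have hR := tendsto_b' hP heq hST
  have key : ∀ j : ℕ, ∃ N₀ : ℕ, ∀ N ≥ N₀, (r : ℝ) * b ^ j * finrank W.K (T.C (pw X N)) ≤
      (r + ε) * finrank W.K (T.C (pw X (N + j))) := by
    intro j
    have h1 := tendsto_shift htpos hR j
    have h2 : Tendsto (fun n => (r + ε) * ((finrank W.K (T.C (pw X (n + j))) : ℝ) /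
        finrank W.K (T.C (pw X n)))) atTop (𝓝 ((r + ε) * (b : ℝ) ^ j)) := h1.const_mul _
    have h3 : (r : ℝ) * b ^ j < (r + ε) * (b : ℝ) ^ j :=
      mul_lt_mul_of_pos_right (by linarith) (by positivity)
    obtain ⟨N₀, hN₀⟩ := eventually_atTop.1 (h2.eventually (lt_mem_nhds h3))
    refine ⟨N₀, fun N hN => ?_⟩
    have h4 := hN₀ N hN
    have h5 : (0 : ℝ) < finrank W.K (T.C (pw X N)) := by exact_mod_cast htpos N
    rw [← mul_div_assoc, lt_div_iff₀ h5] at h4
    exact h4.le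
  obtain ⟨N₁, h₁⟩ := key 1
  obtain ⟨N₂, h₂⟩ := key 2
  refine ⟨N₁ + N₂ + 4, fun n hn => ?_⟩
  obtain ⟨m₀, l, hm₀, hl'⟩ : ∃ m₀ l, m₀ ≤ 1 ∧ n = m₀ + (l + l + 1) + 1 :=
    ⟨n % 2, (n - n % 2 - 2) / 2, by omega, by omega⟩
  let φ : (pw X m₀).prod ((pw X l).prod (pw X l)) ≅ pw X n :=
    prodCongr (Iso.refl _) (pwAdd X l l) ≪≫ pwAdd X m₀ (l + l + 1) ≪≫
      eqToIso (congrArg (pw X) hl'.symm)
  have h3 := dd_le_rank' hP hf hff φ
  rw [T.a_iso (pwAdd X l l), a_eq_finrank (hP _), finrank_pw] at h3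
  have h4 : (dd T f (pw X n) : ℝ) ≤ (r : ℝ) * b ^ (m₀ + 1) *
      finrank W.K (T.C (pw X (l + l + 1))) := by exact_mod_cast h3
  refine h4.trans ?_
  have hn' : n = (l + l + 1) + (m₀ + 1) := by omega
  rw [hn']
  interval_cases m₀
  · exact h₁ _ (by omega)
  · exact h₂ _ (by omega)

/-- **The limit for an idempotent on a power.** -/
theorem tendsto_dd {m : ℕ} {e : Module.End W.K (W.H (pw X m))} (he : e ∈ T.Op (pw X m) (pw X m))
    (hee : e ∘ₗ e = e) : Tendsto (fun n => (dd T e (pw X n) : ℝ) / finrank W.K (T.C (pw X n)))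
      atTop (𝓝 (finrank W.K (LinearMap.range e) : ℝ)) := by
  set b := finrank W.K (W.H X) with hb
  have htpos : ∀ n, 0 < finrank W.K (T.C (pw X n)) := by
    intro n
    have := nontrivial_pw (W := W) (X := X) n
    exact finrank_C_pos T
  have hR := tendsto_b' hP heq hST
  have h1 := tendsto_shift htpos hR (m + 1)
  obtain ⟨hc, hc'⟩ := finrank_compl hee
  rw [Metric.tendsto_atTop]
  intro ε hε
  have h2 : (b : ℝ) ^ (m + 1) - ε / 4 < (b : ℝ) ^ (m + 1) := by linarith
  obtain ⟨N₁, hN₁⟩ := eventually_atTop.1 (h1.eventually (lt_mem_nhds h2))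
  obtain ⟨N₂, hN₂⟩ := dd_up' hP heq hST (f := (1 - e : Module.End W.K _))
    (Submodule.sub_mem _ Op.id he) hc (by positivity : 0 < ε / 4)
  obtain ⟨N₃, hN₃⟩ := dd_up' hP heq hST he hee (half_pos hε)
  refine ⟨N₁ + N₂ + N₃, fun n hn => ?_⟩
  have h3 := hN₁ n (by omega)
  have h4 := hN₂ n (by omega)
  have h9 := hN₃ n (by omega)
  have h5 : (0 : ℝ) < finrank W.K (T.C (pw X n)) := by exact_mod_cast htpos n
  rw [lt_div_iff₀ h5] at h3
  have h6 := dd_compl he hee (pw X n)
  rw [T.finrank_C_iso (pwAdd X n m)] at h6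
  have h7 : (dd T e (pw X n) : ℝ) + dd T (1 - e) (pw X n) =
      finrank W.K (T.C (pw X (n + (m + 1)))) := by exact_mod_cast h6
  have h8 : (finrank W.K (LinearMap.range (1 - e)) : ℝ) + finrank W.K (LinearMap.range e) =
      (b : ℝ) ^ (m + 1) := by
    rw [finrank_pw] at hc'
    exact_mod_cast hc'
  rw [Real.dist_eq, abs_lt]
  constructor
  · have h10 : (finrank W.K (LinearMap.range e) - ε / 2) * finrank W.K (T.C (pw X n)) ≤
        (dd T e (pw X n) : ℝ) := by nlinarith
    have h11 := (le_div_iff₀ h5).2 h10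
    linarith
  · have h11 := (div_le_iff₀ h5).2 h9
    linarith

end

end Pool.Agent.U226.GT
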