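import Pool.Agent.U226.GT.Tw

/-!
# Consequences of semisimplicity
-/

set_option linter.unusedSectionVars false
set_option autoImplicit false

open CategoryTheory AlgebraicGeometry Filter Topology

universe u v

namespace Pool.Agent.U226.GT

open Module
open Pool.Agent.H914 Pool.Agent.H914.VarClass Pool.Agent.H914.VarClass.Obj
  Pool.Agent.H914.WeilCohomology
open Pool.Agent.Y133.Half (pw ClassPred Sys)
open Pool.Agent.Y133.Half.Sys (mem_Op Nondeg)

variable {k : Type u} [Field k] {𝒱 : VarClass k} {ops : CycleOps 𝒱}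
  {W : WeilCohomology.{u, v} ops} {Γ : Type} [Group Γ] {G : GaloisAction W Γ}
  {X Y Z P Q N : 𝒱.Obj}

/-- A nonzero Tate class has a nonzero intersection number with another Tate class, if the
representation is semisimple. -/
lemma exists_tate_dual {j l : ℕ} (hjl : j + l = X.dim) (hss : Semisimple G X (2 * j)) {x : W.H X}
    (hx : IsTate G X j x) (hx0 : x ≠ 0) : ∃ y, IsTate G X l y ∧ W.tr X (x * y) = 1 := by
  have hst : ∀ᶠ g in pf Γ, ∀ u ∈ Submodule.span W.K {x}, G.act X g u ∈ Submodule.span W.K {x} := by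
    filter_upwards [hx.ev] with g hg u hu
    obtain ⟨r, rfl⟩ := Submodule.mem_span_singleton.1 hu
    rw [map_smul, hg]
    exact Submodule.smul_mem _ _ (Submodule.smul_mem _ _ (Submodule.mem_span_singleton_self x))
  obtain ⟨U', hU', hst', hinf, hsup⟩ := hss (Submodule.span W.K {x})
    ((Submodule.span_singleton_le_iff_mem _ _).2 hx.1) (ev_iff.1 hst)
  -- the functional
  set N := U' ⊔ ⨆ i, ⨆ (_ : i ≠ 2 * j), W.gr X i with hN
  have hxN : x ∉ N := by
    intro h
    obtain ⟨u, hu, w, hw, huw⟩ := Submodule.mem_sup.1 h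
    have h1 : proj (W.isInternal X) (2 * j) w = 0 := by
      have h2 : (⨆ i, ⨆ (_ : i ≠ 2 * j), W.gr X i) ≤
          LinearMap.ker (proj (W.isInternal X) (2 * j)) := by
        apply iSup_le; intro i; apply iSup_le; intro hi a ha
        exact proj_ne _ ha hi
      exact h2 hw
    have h2 := congrArg (proj (W.isInternal X) (2 * j)) huw
    rw [map_add, h1, add_zero, proj_same _ (hU' hu), proj_same _ hx.1] at h2
    have h3 : x ∈ Submodule.span W.K {x} ⊓ U' :=
      ⟨Submodule.mem_span_singleton_self x, h2 ▸ hu⟩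
    rw [hinf, Submodule.mem_bot] at h3
    exact hx0 h3
  obtain ⟨lam', hlam', hlamN⟩ := Submodule.exists_le_ker_of_notMem hxN
  set lam := (lam' x)⁻¹ • lam' with hlam
  have hlx : lam x = 1 := by
    rw [hlam, LinearMap.smul_apply, smul_eq_mul, inv_mul_cancel₀ hlam']
  have hl0 : ∀ a ∈ N, lam a = 0 := by
    intro a ha
    rw [hlam, LinearMap.smul_apply, show lam' a = 0 from hlamN ha, smul_zero]
  have hgr : ∀ i, i ≠ 2 * j → ∀ a ∈ W.gr X i, lam a = 0 := by
    intro i hi a ha
    apply hl0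
    exact Submodule.mem_sup_right (Submodule.mem_iSup_of_mem i (Submodule.mem_iSup_of_mem hi ha))
  have hU0 : ∀ a ∈ U', lam a = 0 := fun a ha => hl0 a (Submodule.mem_sup_left ha)
  obtain ⟨y, hy⟩ := exists_dual (W := W) lam
  have hygr : y ∈ W.gr X (2 * l) :=
    gr_of_tr (m := 2 * j) (by omega) fun i hi w hw => by rw [hy, hgr i hi w hw]
  refine ⟨y, ⟨hygr, ev_iff.1 ?_⟩, ?_⟩
  · filter_upwards [hx.ev, ev_iff.2 hst'] with g h1 h2
    -- `λ (g b) = χ(g)^j λ(b)`
    have h3 : ∀ b, lam (G.act X g b) = (G.χ g : W.K) ^ j * lam b := by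
      intro b
      refine gr_induction (W.isInternal X)
        (p := fun b => lam (G.act X g b) = (G.χ g : W.K) ^ j * lam b) ?_ ?_ b
      · intro i b hb
        by_cases hi : i = 2 * j
        · subst hi
          rw [← hsup] at hb
          obtain ⟨u, hu, w, hw, rfl⟩ := Submodule.mem_sup.1 hb
          obtain ⟨r, rfl⟩ := Submodule.mem_span_singleton.1 hu
          rw [map_add, map_add, map_add, hU0 _ (h2 w hw), hU0 w hw, add_zero, add_zero, map_smul,
            h1, map_smul, map_smul, map_smul, hlx, smul_eq_mul, smul_eq_mul, smul_eq_mul]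
          ring
        · rw [hgr i hi _ (G.gr_mem X g i b hb), hgr i hi b hb, mul_zero]
      · intro b b' hb hb'
        rw [map_add, map_add, map_add, hb, hb', mul_add]
    apply W.tr_ext
    intro c
    obtain ⟨b, rfl⟩ : ∃ b, c = G.act X g b := ⟨G.act X g⁻¹ c, (act_inv g c).symm⟩
    rw [← map_mul, G.tr_act, hy, smul_mul_assoc, map_smul, hy, h3, smul_eq_mul, ← mul_assoc,
      ← pow_add]
    congr 2
    omega
  · rw [← W.even_comm hygr, hy, hlx]

/-- The pairing on the Tate classes is nondegenerate, if the representation is semisimple. -/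
theorem nondeg_of_ss (hss : ∀ j, Semisimple G X (2 * j)) : Nondeg (galPred G).sys X := by
  intro x hx h
  have key : ∀ j, proj (W.isInternal X) (2 * j) x = 0 := by
    intro j
    by_contra h0
    have h1 : IsTate G X j (proj (W.isInternal X) (2 * j) x) :=
      ClassPred.sp_proj (Q := galPred G) hx j
    have hj : j ≤ X.dim := by
      by_contra hj
      apply h0
      have h2 := proj_mem (W.isInternal X) (2 * j) x
      rw [W.gr_eq_bot X _ (by omega)] at h2
      exact (Submodule.mem_bot _).1 h2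
    obtain ⟨y, hy, hy1⟩ := exists_tate_dual (l := X.dim - j) (by omega) (hss j) h1 h0
    rw [tr_proj x hy.1 (by omega), h y (ClassPred.sp_of (Q := galPred G) hy)] at hy1
    exact zero_ne_one hy1
  have h1 := sum_proj (W.isInternal X) (N := 2 * X.dim + 1) (fun i hi => W.gr_eq_bot X i (by omega))
  have h2 := congrArg (fun F => F x) h1
  rw [LinearMap.sum_apply] at h2
  have h3 : ∀ i ∈ Finset.range (2 * X.dim + 1), proj (W.isInternal X) i x = 0 := by
    intro i _
    rcases Nat.even_or_odd' i with ⟨j, rfl | rfl⟩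
    · exact key j
    · refine ClassPred.sp_ind (Q := galPred G)
        (q := fun x => proj (W.isInternal X) (2 * j + 1) x = 0) ?_ ?_ ?_ hx
      · intro l y hy
        exact proj_ne _ ((galPred G).gr hy) (by omega)
      · exact map_zero _
      · intro a b ha hb
        rw [map_add, ha, hb, add_zero]
  rw [Finset.sum_eq_zero h3] at h2
  exact h2.symm

/-- Semisimplicity is invariant under isomorphisms. -/
lemma Semisimple.iso (φ : X ≅ Y) {i : ℕ} (h : Semisimple G X i) : Semisimple G Y i := by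
  have e1 : ∀ y : W.H Y, W.map φ.inv (W.map φ.hom y) = y := by
    intro y; rw [← W.map_comp, φ.inv_hom_id, W.map_id]
  have e2 : ∀ x : W.H X, W.map φ.hom (W.map φ.inv x) = x := by
    intro x; rw [← W.map_comp, φ.hom_inv_id, W.map_id]
  intro U hU hst
  have hst1 : ∀ᶠ g in pf Γ, ∀ u ∈ U.comap (W.map φ.inv).toLinearMap,
      G.act X g u ∈ U.comap (W.map φ.inv).toLinearMap := by
    filter_upwards [ev_iff.2 hst, ev_iff.2 (G.map_act φ.inv)] with g h1 h2 u hu
    rw [Submodule.mem_comap, AlgHom.toLinearMap_apply] at hu ⊢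
    rw [← h2]
    exact h1 _ hu
  obtain ⟨U', hU', hst', hinf, hsup⟩ := h (U.comap (W.map φ.inv).toLinearMap) (by
    intro x hx
    have := W.map_mem φ.hom (hU hx)
    rw [AlgHom.toLinearMap_apply, e2] at this
    exact this) (ev_iff.1 hst1)
  refine ⟨U'.comap (W.map φ.hom).toLinearMap, ?_, ev_iff.1 ?_, ?_, ?_⟩
  · intro y hy
    have := W.map_mem φ.inv (hU' hy)
    rw [AlgHom.toLinearMap_apply, e1] at this
    exact this
  · filter_upwards [ev_iff.2 hst', ev_iff.2 (G.map_act φ.hom)] with g h1 h2 u hu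
    rw [Submodule.mem_comap, AlgHom.toLinearMap_apply] at hu ⊢
    rw [← h2]
    exact h1 _ hu
  · rw [eq_bot_iff]
    rintro y ⟨hy, hy'⟩
    have h1 : W.map φ.hom y ∈ U.comap (W.map φ.inv).toLinearMap ⊓ U' := by
      refine ⟨?_, hy'⟩
      rw [SetLike.mem_coe, Submodule.mem_comap, AlgHom.toLinearMap_apply, e1]
      exact hy
    rw [hinf, Submodule.mem_bot] at h1
    rw [Submodule.mem_bot, ← e1 y, h1, map_zero]
  · apply le_antisymm
    · apply sup_le hU
      intro y hy
      have := W.map_mem φ.inv (hU' hy)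
      rw [AlgHom.toLinearMap_apply, e1] at this
      exact this
    · intro y hy
      have h1 := W.map_mem φ.hom hy
      rw [← hsup] at h1
      obtain ⟨u, hu, w, hw, huw⟩ := Submodule.mem_sup.1 h1
      have h2 : y = W.map φ.inv u + W.map φ.inv w := by
        rw [← map_add, huw, e1]
      rw [h2]
      refine Submodule.add_mem_sup hu ?_
      rw [Submodule.mem_comap, AlgHom.toLinearMap_apply, e2]
      exact hw

/-- An equivariant projector onto a stable subspace. -/
theorem exists_projector (hss : Semisimple G (Y.prod Y) (2 * Y.dim))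
    {K₀ : Submodule W.K (W.H Y)} (hgr : Gr W K₀) (hst : Stable G K₀) :
    ∃ e : Module.End W.K (W.H Y), IsTw G 0 e ∧ (∀ a, e a ∈ K₀) ∧ ∀ a ∈ K₀, e a = a := by
  -- the classes of the operators with values in `K₀`
  set A : Submodule W.K (W.H (Y.prod Y)) :=
    { carrier := {c | c ∈ W.gr _ (2 * Y.dim) ∧ ∀ a, W.corr c a ∈ K₀}
      zero_mem' := ⟨Submodule.zero_mem _, fun a => by
        rw [corr_zero, LinearMap.zero_apply]; exact Submodule.zero_mem _⟩
      add_mem' := fun {c d} hc hd => ⟨Submodule.add_mem _ hc.1 hd.1, fun a => by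
        rw [corr_add, LinearMap.add_apply]; exact Submodule.add_mem _ (hc.2 a) (hd.2 a)⟩
      smul_mem' := fun r c hc => ⟨Submodule.smul_mem _ _ hc.1, fun a => by
        rw [corr_smul, LinearMap.smul_apply]; exact Submodule.smul_mem _ _ (hc.2 a)⟩ } with hA
  set R : Submodule W.K (W.H (Y.prod Y)) :=
    { carrier := {c | c ∈ A ∧ ∀ a ∈ K₀, W.corr c a = 0}
      zero_mem' := ⟨Submodule.zero_mem _, fun a _ => by rw [corr_zero, LinearMap.zero_apply]⟩
      add_mem' := fun {c d} hc hd => ⟨Submodule.add_mem _ hc.1 hd.1, fun a ha => by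
        rw [corr_add, LinearMap.add_apply, hc.2 a ha, hd.2 a ha, add_zero]⟩
      smul_mem' := fun r c hc => ⟨Submodule.smul_mem _ _ hc.1, fun a ha => by
        rw [corr_smul, LinearMap.smul_apply, hc.2 a ha, smul_zero]⟩ } with hR
  have hact : ∀ᶠ g in pf Γ, ∀ (c : W.H (Y.prod Y)) b, (W.corr (G.act _ g c) (G.act Y g b)) =
      chi G g Y.dim • G.act Y g (W.corr c b) := by
    filter_upwards [corr_act (G := G) (P := Y) (Q := Y)] with g h c b
    rw [h]
  have hmem : ∀ g, (∀ (c : W.H (Y.prod Y)) b, (W.corr (G.act _ g c) (G.act Y g b)) =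
      chi G g Y.dim • G.act Y g (W.corr c b)) → (∀ a ∈ K₀, G.act Y g a ∈ K₀) →
      ∀ c ∈ A, G.act _ g c ∈ A := by
    intro g h1 h2 c hc
    refine ⟨G.gr_mem _ g _ c hc.1, fun a => ?_⟩
    obtain ⟨b, rfl⟩ : ∃ b, a = G.act Y g b := ⟨G.act Y g⁻¹ a, (act_inv g a).symm⟩
    rw [h1]
    exact Submodule.smul_mem _ _ (h2 _ (hc.2 b))
  have hst2 := ev_inv hst
  have hRst : ∀ᶠ g in pf Γ, ∀ c ∈ R, G.act _ g c ∈ R := by
    filter_upwards [hact, hst, hst2] with g h1 h2 h3 c hc
    refine ⟨hmem g h1 h2 c hc.1, fun a ha => ?_⟩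
    have h4 := h3 a ha
    obtain ⟨b, hb⟩ : ∃ b, b = G.act Y g⁻¹ a := ⟨_, rfl⟩
    rw [← hb] at h4
    have h5 : a = G.act Y g b := by rw [hb]; exact (act_inv g a).symm
    rw [h5, h1, hc.2 b h4, map_zero, smul_zero]
  obtain ⟨R', hR', hRst', hinf, hsup⟩ := hss R (fun c hc => hc.1.1) (ev_iff.1 hRst)
  -- some projector
  obtain ⟨q, hq⟩ := K₀.exists_isCompl
  set pr : Module.End W.K (W.H Y) := K₀.subtype ∘ₗ K₀.projectionOnto q hq with hpr
  have hpr1 : ∀ a, pr a ∈ K₀ := fun a => (K₀.projectionOnto q hq a).2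
  have hpr2 : ∀ a ∈ K₀, pr a = a := by
    intro a ha
    have := Submodule.projectionOnto_apply_left hq ⟨a, ha⟩
    rw [hpr, LinearMap.comp_apply]
    exact congrArg Subtype.val this
  set p : Module.End W.K (W.H Y) := ∑ i ∈ Finset.range (2 * Y.dim + 1),
    proj (W.isInternal Y) i * pr * proj (W.isInternal Y) i with hp
  have hp1 : ∀ a, p a ∈ K₀ := by
    intro a
    rw [hp, LinearMap.sum_apply]
    exact Submodule.sum_mem _ fun i _ => hgr i _ (hpr1 _)
  have hsum := sum_proj (W.isInternal Y) (N := 2 * Y.dim + 1)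
    (fun i hi => W.gr_eq_bot Y i (by omega))
  have hp2 : ∀ a ∈ K₀, p a = a := by
    intro a ha
    have h2 := congrArg (fun F => F a) hsum
    rw [LinearMap.sum_apply] at h2
    rw [hp, LinearMap.sum_apply]
    refine Eq.trans (Finset.sum_congr rfl fun i _ => ?_) h2
    rw [Module.End.mul_apply, Module.End.mul_apply, hpr2 _ (hgr i a ha),
      proj_same _ (proj_mem _ _ _)]
  have hp3 : Shift W 0 p := by
    intro i a ha
    rw [mul_zero, add_zero, grZ_natCast, hp, LinearMap.sum_apply]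
    refine Submodule.sum_mem _ fun l _ => ?_
    by_cases hl : i = l
    · subst hl
      exact proj_mem _ _ _
    · rw [Module.End.mul_apply, proj_ne _ ha hl, map_zero]
      exact Submodule.zero_mem _
  obtain ⟨c₁, hc₁⟩ := corr_surj p
  have hc₁A : c₁ ∈ A := ⟨gr_of_shift (s := 0) (by simp) (by rw [hc₁]; exact hp3), fun a => by
    rw [hc₁]; exact hp1 a⟩
  have h1 := hc₁A.1
  rw [← hsup] at h1
  obtain ⟨r, hr, c₀, hc₀, hrc⟩ := Submodule.mem_sup.1 h1
  have hc₀e : c₀ = c₁ - r := by rw [← hrc]; abel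
  have hc₀A : c₀ ∈ A := by rw [hc₀e]; exact Submodule.sub_mem _ hc₁A hr.1
  have hc₀K : ∀ a ∈ K₀, W.corr c₀ a = a := by
    intro a ha
    have e : W.corr (c₁ - r) = W.corr c₁ - W.corr r :=
      map_sub (Pool.Agent.Y133.Half.corrL W Y Y) _ _
    rw [hc₀e, e, LinearMap.sub_apply, hr.2 a ha, hc₁, hp2 a ha, sub_zero]
  have hT : IsTate G (Y.prod Y) Y.dim c₀ := by
    refine ⟨hc₀A.1, ev_iff.1 ?_⟩
    filter_upwards [hact, hst, hst2, ev_iff.2 hRst'] with g h1 h2 h3 h4
    have h5 : G.act _ g c₀ - (G.χ g : W.K) ^ Y.dim • c₀ ∈ R ⊓ R' := by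
      refine ⟨⟨Submodule.sub_mem _ (hmem g h1 h2 c₀ hc₀A) (Submodule.smul_mem _ _ hc₀A), ?_⟩,
        Submodule.sub_mem _ (h4 c₀ hc₀) (Submodule.smul_mem _ _ hc₀)⟩
      intro a ha
      have h6 := h3 a ha
      obtain ⟨b, hb⟩ : ∃ b, b = G.act Y g⁻¹ a := ⟨_, rfl⟩
      rw [← hb] at h6
      have h7 : a = G.act Y g b := by rw [hb]; exact (act_inv g a).symm
      have e : W.corr (G.act (Y.prod Y) g c₀ - (G.χ g : W.K) ^ Y.dim • c₀) =
          W.corr (G.act (Y.prod Y) g c₀) - W.corr ((G.χ g : W.K) ^ Y.dim • c₀) :=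
        map_sub (Pool.Agent.Y133.Half.corrL W Y Y) _ _
      rw [e, LinearMap.sub_apply, corr_smul, LinearMap.smul_apply, hc₀K a ha, h7, h1,
        hc₀K b h6, chi_nat, sub_self]
    rw [hinf, Submodule.mem_bot] at h5
    exact sub_eq_zero.1 h5
  have h6 := IsTate.tw hT
  rw [sub_self] at h6
  exact ⟨W.corr c₀, h6, hc₀A.2, hc₀K⟩

end Pool.Agent.U226.GT
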