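import Pool.Agent.U226.GT.SS
import Pool.Agent.U226.GT.Pow

/-!
# The part of a variety which comes from the powers of another variety
-/

set_option linter.unusedSectionVars false
set_option autoImplicit false

open CategoryTheory AlgebraicGeometry Filter Topology

universe u v

namespace Pool.Agent.U226.GT

open Module
open Pool.Agent.H914 Pool.Agent.H914.VarClass Pool.Agent.H914.VarClass.Obj
  Pool.Agent.H914.WeilCohomology Pool.Agent.H281R3.HT
open Pool.Agent.Y133.Half (pw ClassPred Sys algSys pwAdd)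
open Pool.Agent.Y133.Half.Sys (mem_Op Nondeg Op.comp Op.id Op.corr)
open Pool.Agent.U226.RG (post post_apply dd nontrivial_pw finrank_C_pos)

variable {k : Type u} [Field k] {𝒱 : VarClass k} {ops : CycleOps 𝒱}
  {W : WeilCohomology.{u, v} ops} {Γ : Type} [Group Γ] {G : GaloisAction W Γ}
  {X Y Z P Q N : 𝒱.Obj}

/-- A linear map which vanishes on the kernel of another one factors through it. -/
lemma exists_factor {K A B C : Type*} [Field K] [AddCommGroup A] [Module K A] [AddCommGroup B]
    [Module K B] [AddCommGroup C] [Module K C] (π : A →ₗ[K] B) (ρ : A →ₗ[K] C)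
    (h : ∀ x, π x = 0 → ρ x = 0) : ∃ ψ : B →ₗ[K] C, ∀ x, ψ (π x) = ρ x := by
  obtain ⟨σ, hσ⟩ := π.rangeRestrict.exists_rightInverse_of_surjective π.range_rangeRestrict
  obtain ⟨ψ, hψ⟩ := (ρ ∘ₗ σ).exists_extend
  refine ⟨ψ, fun x => ?_⟩
  have h1 : ψ (π x) = ρ (σ ⟨π x, ⟨x, rfl⟩⟩) := congrArg (fun F => F ⟨π x, ⟨x, rfl⟩⟩) hψ
  have h2 : π (σ ⟨π x, ⟨x, rfl⟩⟩) = π x :=
    congrArg Subtype.val (congrArg (fun F => F ⟨π x, ⟨x, rfl⟩⟩) hσ)
  have h3 := h (σ ⟨π x, ⟨x, rfl⟩⟩ - x) (by rw [map_sub, h2, sub_self])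
  rw [map_sub, sub_eq_zero] at h3
  rw [h1, h3]

/-- The data of one step: the equivariant homogeneous map `g₀` from `Y` to `Z`, an equivariant
idempotent `e` whose kernel is the inverse image of `V₁`. -/
structure StepData (G : GaloisAction W Γ) {Y Z : 𝒱.Obj} (V₁ : Submodule W.K (W.H Z)) (s₀ : ℤ)
    (g₀ : W.H Y →ₗ[W.K] W.H Z) (e : Module.End W.K (W.H Y)) : Prop where
  gr : Gr W V₁
  st : Stable G V₁
  tw : IsTw G s₀ g₀
  etw : IsTw G 0 e
  idem : ∀ a, e (e a) = e a
  ker : ∀ a, e a = 0 ↔ g₀ a ∈ V₁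

lemma exists_stepData (hss : Semisimple G (Y.prod Y) (2 * Y.dim))
    {V₁ : Submodule W.K (W.H Z)} (hgr : Gr W V₁) (hst : Stable G V₁) {s₀ : ℤ}
    {g₀ : W.H Y →ₗ[W.K] W.H Z} (hg : IsTw G s₀ g₀) : ∃ e, StepData G V₁ s₀ g₀ e := by
  obtain ⟨p, hp, hp1, hp2⟩ := exists_projector hss (K₀ := V₁.comap g₀) (hg.shift.comap_gr hgr)
    (hg.comap_stable hst)
  refine ⟨1 - p, hgr, hst, hg, ⟨?_, ?_⟩, ?_, ?_⟩
  · intro i a ha
    rw [LinearMap.sub_apply, mul_zero, add_zero, grZ_natCast]
    have h1 := hp.shift i a ha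
    rw [mul_zero, add_zero, grZ_natCast] at h1
    exact Submodule.sub_mem _ ha h1
  · filter_upwards [hp.act] with g hg a
    rw [chi_zero, one_smul, LinearMap.sub_apply, LinearMap.sub_apply, map_sub, hg, chi_zero,
      one_smul]
    rfl
  · intro a
    rw [LinearMap.sub_apply, LinearMap.sub_apply, Module.End.one_apply, Module.End.one_apply,
      map_sub, hp2 _ (hp1 a), sub_self, sub_zero]
  · intro a
    rw [LinearMap.sub_apply, Module.End.one_apply, sub_eq_zero]
    constructor
    · intro h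
      rw [h]
      exact hp1 a
    · intro h
      exact (hp2 a h).symm

namespace StepData

variable {V₁ : Submodule W.K (W.H Z)} {s₀ : ℤ} {g₀ : W.H Y →ₗ[W.K] W.H Z}
  {e : Module.End W.K (W.H Y)} (D : StepData G V₁ s₀ g₀ e)

include D

lemma e_comp : e ∘ₗ e = e := LinearMap.ext D.idem

lemma comp_mem (b : W.H Y) : g₀ (b - e b) ∈ V₁ := by
  rw [← D.ker, map_sub, D.idem, sub_self]

/-- Uniqueness. -/
lemma uniq {y y' : W.H Y} (hy : e y = y) (hy' : e y' = y') (h : g₀ (y - y') ∈ V₁) : y = y' := by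
  rw [← D.ker, map_sub, hy, hy'] at h
  exact sub_eq_zero.1 h

lemma exists_psi : ∃ ψ : W.H Z →ₗ[W.K] W.H Y, ∀ v ∈ V₁, ∀ b, ψ (v + g₀ b) = e b := by
  obtain ⟨ψ, hψ⟩ := exists_factor (V₁.subtype.coprod g₀) (e ∘ₗ LinearMap.snd W.K V₁ (W.H Y)) (by
    rintro ⟨v, b⟩ h
    rw [LinearMap.coprod_apply] at h
    change e b = 0
    rw [D.ker]
    have h1 : g₀ b = -(v : W.H Z) := by
      rw [eq_neg_iff_add_eq_zero, add_comm]
      exact h
    rw [h1]
    exact Submodule.neg_mem _ v.2)
  exact ⟨ψ, fun v hv b => hψ (⟨v, hv⟩, b)⟩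

omit D in
lemma mem_two {x : W.H Z} (hx : x ∈ V₁ ⊔ LinearMap.range g₀) : ∃ v ∈ V₁, ∃ b, x = v + g₀ b := by
  obtain ⟨v, hv, _, ⟨b, rfl⟩, rfl⟩ := Submodule.mem_sup.1 hx
  exact ⟨v, hv, b, rfl⟩

variable {ψ : W.H Z →ₗ[W.K] W.H Y} (hψ : ∀ v ∈ V₁, ∀ b, ψ (v + g₀ b) = e b)

include hψ

lemma psi_val {x : W.H Z} (hx : x ∈ V₁ ⊔ LinearMap.range g₀) :
    e (ψ x) = ψ x ∧ x - g₀ (ψ x) ∈ V₁ := by
  obtain ⟨v, hv, b, rfl⟩ := mem_two hx
  rw [hψ v hv b]
  refine ⟨D.idem b, ?_⟩
  have h1 : v + g₀ b - g₀ (e b) = v + g₀ (b - e b) := by rw [map_sub]; abel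
  rw [h1]
  exact Submodule.add_mem _ hv (D.comp_mem b)

/-- The lift of an equivariant homogeneous map. -/
lemma lift {s : ℤ} {h : W.H N →ₗ[W.K] W.H Z} (hh : IsTw G s h)
    (hV : ∀ a, h a ∈ V₁ ⊔ LinearMap.range g₀) : IsTw G (s - s₀) (ψ ∘ₗ h) := by
  have h0 : ∀ a, e (ψ (h a)) = ψ (h a) := fun a => (D.psi_val hψ (hV a)).1
  have h0' : ∀ a, h a - g₀ (ψ (h a)) ∈ V₁ := fun a => (D.psi_val hψ (hV a)).2
  refine ⟨?_, ?_⟩
  · intro i a ha
    rw [LinearMap.comp_apply]
    have h1 := hh.shift i a ha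
    -- the component of `h a - g₀ y`
    have hcomp : ∀ y : W.H Y, e y = y → (h a - g₀ y ∈ V₁) → ψ (h a) = y := by
      intro y hy hy'
      refine D.uniq (h0 a) hy ?_
      have h2 : g₀ (ψ (h a) - y) = (h a - g₀ y) - (h a - g₀ (ψ (h a))) := by
        rw [map_sub]; abel
      rw [h2]
      exact Submodule.sub_mem _ hy' (h0' a)
    by_cases hm : 0 ≤ (i : ℤ) + 2 * (s - s₀)
    · obtain ⟨m, hm'⟩ := Int.eq_ofNat_of_zero_le hm
      rw [hm', grZ_natCast]
      have hy : e (proj (W.isInternal Y) m (ψ (h a))) = proj (W.isInternal Y) m (ψ (h a)) := by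
        rw [← D.etw.shift.proj_eq (i := m) (by ring) (ψ (h a)), h0]
      rw [hcomp _ hy ?_]
      · exact proj_mem _ _ _
      · by_cases hl : 0 ≤ (i : ℤ) + 2 * s
        · obtain ⟨l, hl'⟩ := Int.eq_ofNat_of_zero_le hl
          rw [hl', grZ_natCast] at h1
          have hlm : (l : ℤ) = m + 2 * s₀ := by
            have e1 : (i : ℤ) + 2 * (s - s₀) = m := hm'
            have e2 : (i : ℤ) + 2 * s = l := hl'
            omega
          rw [← D.tw.shift.proj_eq hlm (ψ (h a))]
          nth_rewrite 1 [← proj_same (W.isInternal Z) h1]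
          rw [← map_sub]
          exact D.gr l _ (h0' a)
        · rw [grZ_of_neg (by omega)] at h1
          have h2 := D.tw.shift m _ (proj_mem (W.isInternal Y) m (ψ (h a)))
          rw [grZ_of_neg (by omega)] at h2
          rw [(Submodule.mem_bot _).1 h2, (Submodule.mem_bot _).1 h1, sub_zero]
          exact Submodule.zero_mem _
    · rw [grZ_of_neg (by omega), Submodule.mem_bot]
      refine hcomp 0 (map_zero _) ?_
      rw [map_zero, sub_zero]
      by_cases hl : 0 ≤ (i : ℤ) + 2 * s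
      · obtain ⟨l, hl'⟩ := Int.eq_ofNat_of_zero_le hl
        rw [hl', grZ_natCast] at h1
        have h2 := D.tw.shift.proj_none (l := l) (fun i' => by
          have : (l : ℤ) = i + 2 * s := hl'.symm
          omega) (ψ (h a))
        have h3 := D.gr l _ (h0' a)
        rw [map_sub, h2, sub_zero, proj_same _ h1] at h3
        exact h3
      · rw [grZ_of_neg (by omega)] at h1
        rw [(Submodule.mem_bot _).1 h1]
        exact Submodule.zero_mem _
  · filter_upwards [hh.act, D.tw.act, D.etw.act, D.st] with g h1 h2 h3 h4 a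
    rw [LinearMap.comp_apply, LinearMap.comp_apply]
    refine D.uniq ?_ ?_ ?_
    · have h5 := h3 (ψ (h a))
      rw [h0, chi_zero, one_smul] at h5
      exact h5.symm
    · rw [map_smul, h0]
    · have h5 : chi G g s₀ • g₀ (G.act Y g (ψ (h a)) - chi G g (s - s₀) • ψ (h (G.act N g a))) =
          chi G g s • (h (G.act N g a) - g₀ (ψ (h (G.act N g a)))) -
            G.act Z g (h a - g₀ (ψ (h a))) := by
        rw [map_sub, map_smul, smul_sub, smul_smul, ← chi_add, add_sub_cancel, ← h2, map_sub, h1,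
          smul_sub]
        abel
      have h6 := Submodule.sub_mem _ (Submodule.smul_mem V₁ (chi G g s) (h0' (G.act N g a)))
        (h4 _ (h0' a))
      rw [← h5] at h6
      exact (Submodule.smul_mem_iff _ (chi_ne0 (G := G) g s₀)).1 h6

/-- The lift of a general map. -/
lemma lift_op {h : W.H N →ₗ[W.K] W.H Z} (hh : h ∈ (galPred G).sys.Op N Z)
    (hV : ∀ a, h a ∈ V₁ ⊔ LinearMap.range g₀) : ψ ∘ₗ h ∈ (galPred G).sys.Op N Y := by
  obtain ⟨c, hc, rfl⟩ := mem_Op.1 hh
  have hgr2 : Gr W (V₁ ⊔ LinearMap.range g₀) := D.gr.sup D.tw.shift.range_gr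
  have hsum := sum_proj (W.isInternal (N.prod Z)) (N := 2 * (N.prod Z).dim + 1)
    (fun i hi => W.gr_eq_bot _ i (by omega))
  have h1 := congrArg (fun F => F c) hsum
  rw [LinearMap.sum_apply, Module.End.one_apply] at h1
  have h2 : W.corr c = ∑ l ∈ Finset.range (2 * (N.prod Z).dim + 1),
      W.corr (proj (W.isInternal _) l c) := by
    have h3 := map_sum (Pool.Agent.Y133.Half.corrL W N Z)
      (fun l => proj (W.isInternal (N.prod Z)) l c) (Finset.range (2 * (N.prod Z).dim + 1))
    rw [h1] at h3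
    exact h3
  -- every component has values in the same space
  have hval : ∀ j a, W.corr (proj (W.isInternal _) (2 * j) c) a ∈ V₁ ⊔ LinearMap.range g₀ := by
    intro j a
    refine gr_induction (W.isInternal N) (p := fun a =>
      W.corr (proj (W.isInternal _) (2 * j) c) a ∈ V₁ ⊔ LinearMap.range g₀) ?_ ?_ a
    · intro i a ha
      by_cases hl : 0 ≤ (i : ℤ) + 2 * ((j : ℤ) - N.dim)
      · obtain ⟨l, hl'⟩ := Int.eq_ofNat_of_zero_le hl
        have h3 : W.corr (proj (W.isInternal _) (2 * j) c) a =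
            proj (W.isInternal Z) l (W.corr c a) := by
          rw [h2, LinearMap.sum_apply, map_sum]
          have hj : W.corr (proj (W.isInternal _) (2 * j) c) a ∈ W.gr Z l := by
            have := corr_shift (proj_mem (W.isInternal (N.prod Z)) (2 * j) c) i a ha
            rw [hl', grZ_natCast] at this
            exact this
          have hzero : ∀ l' ∈ Finset.range (2 * (N.prod Z).dim + 1), l' ≠ 2 * j →
              proj (W.isInternal Z) l (W.corr (proj (W.isInternal _) l' c) a) = 0 := by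
            intro l' _ hl'j
            rcases Nat.even_or_odd' l' with ⟨j', rfl | rfl⟩
            · have h4 := corr_shift (proj_mem (W.isInternal (N.prod Z)) (2 * j') c) i a ha
              by_cases hn : 0 ≤ (i : ℤ) + 2 * ((j' : ℤ) - N.dim)
              · obtain ⟨q, hq⟩ := Int.eq_ofNat_of_zero_le hn
                rw [hq, grZ_natCast] at h4
                exact proj_ne _ h4 (by omega)
              · rw [grZ_of_neg (by omega)] at h4
                rw [(Submodule.mem_bot _).1 h4, map_zero]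
            · have h4 : proj (W.isInternal (N.prod Z)) (2 * j' + 1) c = 0 := by
                refine ClassPred.sp_ind (Q := galPred G)
                  (q := fun x => proj (W.isInternal (N.prod Z)) (2 * j' + 1) x = 0) ?_ ?_ ?_ hc
                · intro l y hy
                  exact proj_ne _ ((galPred G).gr hy) (by omega)
                · exact map_zero _
                · intro a b ha hb
                  rw [map_add, ha, hb, add_zero]
              rw [h4, corr_zero, LinearMap.zero_apply, map_zero]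
          by_cases hjr : 2 * j ∈ Finset.range (2 * (N.prod Z).dim + 1)
          · rw [Finset.sum_eq_single_of_mem _ hjr hzero, proj_same _ hj]
          · rw [Finset.sum_eq_zero (fun l' hl' => hzero l' hl' (fun h => hjr (h ▸ hl')))]
            have h5 : proj (W.isInternal (N.prod Z)) (2 * j) c = 0 := by
              have h6 := proj_mem (W.isInternal (N.prod Z)) (2 * j) c
              rw [W.gr_eq_bot _ _ (by rw [Finset.mem_range] at hjr; omega)] at h6
              exact (Submodule.mem_bot _).1 h6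
            rw [h5, corr_zero, LinearMap.zero_apply]
        rw [h3]
        exact hgr2 l _ (hV a)
      · have h3 := corr_shift (proj_mem (W.isInternal (N.prod Z)) (2 * j) c) i a ha
        rw [grZ_of_neg (by omega)] at h3
        rw [(Submodule.mem_bot _).1 h3]
        exact Submodule.zero_mem _
    · intro a b ha hb
      rw [map_add]
      exact Submodule.add_mem _ ha hb
  have h3 : ψ ∘ₗ W.corr c = ∑ l ∈ Finset.range (2 * (N.prod Z).dim + 1),
      ψ ∘ₗ W.corr (proj (W.isInternal _) l c) := by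
    apply LinearMap.ext
    intro a
    rw [LinearMap.comp_apply, h2, LinearMap.sum_apply, map_sum, LinearMap.sum_apply]
    rfl
  rw [h3]
  refine Submodule.sum_mem _ fun l _ => ?_
  rcases Nat.even_or_odd' l with ⟨j, rfl | rfl⟩
  · have h4 : IsTate G (N.prod Z) j (proj (W.isInternal _) (2 * j) c) :=
      ClassPred.sp_proj (Q := galPred G) hc j
    exact (D.lift hψ (IsTate.tw h4) (hval j)).mem_Op
  · have h4 : proj (W.isInternal (N.prod Z)) (2 * j + 1) c = 0 := by
      refine ClassPred.sp_ind (Q := galPred G)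
        (q := fun x => proj (W.isInternal (N.prod Z)) (2 * j + 1) x = 0) ?_ ?_ ?_ hc
      · intro l y hy
        exact proj_ne _ ((galPred G).gr hy) (by omega)
      · exact map_zero _
      · intro a b ha hb
        rw [map_add, ha, hb, add_zero]
    rw [h4, corr_zero, LinearMap.comp_zero]
    exact Submodule.zero_mem _

end StepData

end Pool.Agent.U226.GT
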