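import Pool.Agent.U226.GT.Gal

/-!
# Equivariant homogeneous maps
-/

set_option linter.unusedSectionVars false
set_option autoImplicit false

open CategoryTheory AlgebraicGeometry Filter Topology

universe u v

namespace Pool.Agent.U226.GT

open Module
open Pool.Agent.H914 Pool.Agent.H914.VarClass Pool.Agent.H914.VarClass.Obj
  Pool.Agent.H914.WeilCohomology
open Pool.Agent.Y133.Half (pw ClassPred Sys)
open Pool.Agent.Y133.Half.Sys (mem_Op)

variable {k : Type u} [Field k] {𝒱 : VarClass k} {ops : CycleOps 𝒱}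
  {W : WeilCohomology.{u, v} ops} {Γ : Type} [Group Γ] {G : GaloisAction W Γ}
  {X Y Z P Q N : 𝒱.Obj}

/-- The power of the character. -/
def chi (G : GaloisAction W Γ) (g : Γ) (s : ℤ) : W.K := ((G.χ g ^ s : W.Kˣ) : W.K)

lemma chi_add (g : Γ) (s t : ℤ) : chi G g (s + t) = chi G g s * chi G g t := by
  rw [chi, zpow_add]; rfl

lemma chi_nat (g : Γ) (n : ℕ) : chi G g n = (G.χ g : W.K) ^ n := by
  rw [chi, zpow_natCast]; rfl

lemma chi_zero (g : Γ) : chi G g 0 = 1 := by rw [chi, zpow_zero]; rfl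

lemma chi_ne0 (g : Γ) (s : ℤ) : chi G g s ≠ 0 := (G.χ g ^ s).ne_zero

/-- `φ` shifts the degrees by `2 s`. -/
def Shift (W : WeilCohomology.{u, v} ops) {P Q : 𝒱.Obj} (s : ℤ) (φ : W.H P →ₗ[W.K] W.H Q) : Prop :=
  ∀ i : ℕ, ∀ a ∈ W.gr P i, φ a ∈ grZ (W.gr Q) (i + 2 * s)

/-- `φ` shifts the degrees by `2 s` and is equivariant up to the twist by `s`. -/
structure IsTw (G : GaloisAction W Γ) {P Q : 𝒱.Obj} (s : ℤ) (φ : W.H P →ₗ[W.K] W.H Q) : Prop where
  shift : Shift W s φ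
  act : ∀ᶠ g in pf Γ, ∀ a, G.act Q g (φ a) = chi G g s • φ (G.act P g a)

lemma corr_act : ∀ᶠ g in pf Γ, ∀ (c : W.H (P.prod Q)) a,
    chi G g P.dim • G.act Q g (W.corr c a) =
      W.corr (G.act (P.prod Q) g c) (G.act P g a) := by
  filter_upwards [push_act (G := G) (snd P Q), ev_iff.2 (G.map_act (fst P Q))] with g h1 h2 c a
  have h3 := h1 (c * W.map (fst P Q) a)
  rw [map_mul (G.act (P.prod Q) g), h2, dim_prod, pow_add, mul_comm, mul_smul] at h3
  have h4 := smul_right_injective _ (chi_ne (G := G) g Q.dim) h3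
  rw [chi_nat]
  exact h4

lemma corr_shift {j : ℕ} {c : W.H (P.prod Q)} (hc : c ∈ W.gr _ (2 * j)) :
    Shift W ((j : ℤ) - P.dim) (W.corr c) := by
  intro i a ha
  have h1 := W.push_mem (snd P Q) (W.mul_mem hc (W.map_mem (fst P Q) ha))
  rw [corr_apply]
  have e : ((2 * j + i : ℕ) : ℤ) + 2 * ((Q.dim : ℤ) - (P.prod Q).dim) =
      (i : ℤ) + 2 * ((j : ℤ) - P.dim) := by
    rw [dim_prod]; push_cast; ring
  rwa [e] at h1

/-- The operator of a Tate class. -/
lemma IsTate.tw {j : ℕ} {c : W.H (P.prod Q)} (hc : IsTate G _ j c) :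
    IsTw G ((j : ℤ) - P.dim) (W.corr c) := by
  refine ⟨corr_shift hc.1, ?_⟩
  filter_upwards [corr_act (G := G) (P := P) (Q := Q), hc.ev] with g h1 h2 a
  have h3 := h1 c a
  rw [h2, corr_smul, LinearMap.smul_apply, ← chi_nat] at h3
  have e : (j : ℤ) = P.dim + ((j : ℤ) - P.dim) := by ring
  rw [e, chi_add, mul_smul] at h3
  exact smul_right_injective _ (chi_ne0 (G := G) g P.dim) h3

/-- The class of an operator which shifts the degrees. -/
lemma gr_of_shift {s : ℤ} {j : ℕ} (hj : (j : ℤ) = s + P.dim) {c : W.H (P.prod Q)}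
    (h : Shift W s (W.corr c)) : c ∈ W.gr _ (2 * j) := by
  have key : ∀ i a, a ∈ W.gr P i → ∀ i' b, b ∈ W.gr Q i' →
      W.tr Q (W.corr (proj (W.isInternal _) (2 * j) c) a * b) = W.tr Q (W.corr c a * b) := by
    intro i a ha i' b hb
    have e : ∀ x : W.H (P.prod Q), W.tr Q (W.corr x a * b) =
        W.tr (P.prod Q) (x * (W.map (fst P Q) a * W.map (snd P Q) b)) := by
      intro x
      rw [corr_apply, W.tr_push, mul_assoc]
    have hw : W.map (fst P Q) a * W.map (snd P Q) b ∈ W.gr (P.prod Q) (i + i') :=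
      W.mul_mem (W.map_mem _ ha) (W.map_mem _ hb)
    by_cases hii : 2 * j + (i + i') = 2 * (P.prod Q).dim
    · rw [e, e, tr_proj _ hw hii]
    · rw [e (proj (W.isInternal _) (2 * j) c), tr_proj_ne _ hw hii]
      symm
      have h1 := h i a ha
      by_cases hn : 0 ≤ (i : ℤ) + 2 * s
      · obtain ⟨l, hl⟩ := Int.eq_ofNat_of_zero_le hn
        rw [hl, grZ_natCast] at h1
        apply W.tr_eq_zero (W.mul_mem h1 hb)
        rw [dim_prod] at hii
        omega
      · rw [grZ_of_neg (by omega)] at h1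
        rw [(Submodule.mem_bot _).1 h1, zero_mul, map_zero]
  have h1 : W.corr (proj (W.isInternal _) (2 * j) c) = W.corr c := by
    apply gr_ext (W.isInternal P)
    intro i a ha
    apply W.tr_ext
    intro b
    refine gr_induction (W.isInternal Q) (p := fun b =>
      W.tr Q (W.corr (proj (W.isInternal _) (2 * j) c) a * b) = W.tr Q (W.corr c a * b)) ?_ ?_ b
    · intro i' b hb; exact key i a ha i' b hb
    · intro b b' hb hb'
      rw [mul_add, mul_add, map_add, map_add, hb, hb']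
  have h2 : proj (W.isInternal _) (2 * j) c - c = 0 := by
    apply corr_inj
    have : W.corr (proj (W.isInternal (P.prod Q)) (2 * j) c - c) =
        W.corr (proj (W.isInternal (P.prod Q)) (2 * j) c) - W.corr c :=
      map_sub (Pool.Agent.Y133.Half.corrL W P Q) _ _
    rw [this, h1, sub_self]
  rw [← sub_eq_zero.1 h2]
  exact proj_mem _ _ _

lemma Shift.eq_zero {s : ℤ} {φ : W.H P →ₗ[W.K] W.H Q} (h : Shift W s φ) (hs : s + P.dim < 0) :
    φ = 0 := by
  apply gr_ext (W.isInternal P)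
  intro i a ha
  rw [LinearMap.zero_apply]
  by_cases hi : 2 * P.dim < i
  · rw [W.gr_eq_bot P i hi] at ha
    rw [(Submodule.mem_bot _).1 ha, map_zero]
  · have h1 := h i a ha
    rw [grZ_of_neg (by omega)] at h1
    exact (Submodule.mem_bot _).1 h1

/-- Equivariant homogeneous maps are given by Tate classes. -/
lemma IsTw.exists_tate {s : ℤ} {φ : W.H P →ₗ[W.K] W.H Q} (h : IsTw G s φ) {j : ℕ}
    (hj : (j : ℤ) = s + P.dim) : ∃ c, IsTate G (P.prod Q) j c ∧ W.corr c = φ := by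
  obtain ⟨c, rfl⟩ := corr_surj φ
  refine ⟨c, ⟨gr_of_shift hj h.shift, ev_iff.1 ?_⟩, rfl⟩
  filter_upwards [corr_act (G := G) (P := P) (Q := Q), h.act] with g h1 h2
  have h3 : W.corr (G.act _ g c - (G.χ g : W.K) ^ j • c) = 0 := by
    have e : W.corr (G.act (P.prod Q) g c - (G.χ g : W.K) ^ j • c) =
        W.corr (G.act (P.prod Q) g c) - W.corr ((G.χ g : W.K) ^ j • c) :=
      map_sub (Pool.Agent.Y133.Half.corrL W P Q) _ _
    rw [e, sub_eq_zero]
    apply LinearMap.ext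
    intro a
    obtain ⟨b, rfl⟩ : ∃ b, a = G.act P g b := ⟨G.act P g⁻¹ a, (act_inv g a).symm⟩
    rw [← h1 c b, h2 b, smul_smul, ← chi_add, corr_smul, LinearMap.smul_apply, ← chi_nat, hj,
      add_comm]
  exact sub_eq_zero.1 (corr_inj h3)

lemma IsTw.mem_Op {s : ℤ} {φ : W.H P →ₗ[W.K] W.H Q} (h : IsTw G s φ) :
    φ ∈ (galPred G).sys.Op P Q := by
  by_cases hs : 0 ≤ s + P.dim
  · obtain ⟨j, hj⟩ := Int.eq_ofNat_of_zero_le hs
    obtain ⟨c, hc, rfl⟩ := h.exists_tate hj.symm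
    exact Sys.Op.corr (ClassPred.sp_of (Q := galPred G) hc)
  · rw [h.shift.eq_zero (by omega)]
    exact Submodule.zero_mem _

/-- Induction for the operators given by Tate classes. -/
lemma Op_ind {q : (W.H P →ₗ[W.K] W.H Q) → Prop} (h : ∀ s φ, IsTw G s φ → q φ) (h0 : q 0)
    (hadd : ∀ φ ψ, q φ → q ψ → q (φ + ψ)) {φ : W.H P →ₗ[W.K] W.H Q}
    (hφ : φ ∈ (galPred G).sys.Op P Q) : q φ := by
  obtain ⟨c, hc, rfl⟩ := mem_Op.1 hφ
  refine ClassPred.sp_ind (Q := galPred G) (q := fun c => q (W.corr c)) ?_ ?_ ?_ hc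
  · intro j x hx
    exact h _ _ (IsTate.tw hx)
  · rw [corr_zero]; exact h0
  · intro c d hc hd
    rw [corr_add]; exact hadd _ _ hc hd

/-- The graded subspaces. -/
def Gr (W : WeilCohomology.{u, v} ops) {Z : 𝒱.Obj} (V : Submodule W.K (W.H Z)) : Prop :=
  ∀ i, ∀ a ∈ V, proj (W.isInternal Z) i a ∈ V

/-- The potentially stable subspaces. -/
def Stable (G : GaloisAction W Γ) {Z : 𝒱.Obj} (V : Submodule W.K (W.H Z)) : Prop :=
  ∀ᶠ g in pf Γ, ∀ a ∈ V, G.act Z g a ∈ V

lemma Gr.sup {V V' : Submodule W.K (W.H Z)} (h : Gr W V) (h' : Gr W V') : Gr W (V ⊔ V') := by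
  intro i a ha
  obtain ⟨b, hb, c, hc, rfl⟩ := Submodule.mem_sup.1 ha
  rw [map_add]
  exact Submodule.add_mem_sup (h i b hb) (h' i c hc)

lemma Stable.sup {V V' : Submodule W.K (W.H Z)} (h : Stable G V) (h' : Stable G V') :
    Stable G (V ⊔ V') := by
  filter_upwards [h, h'] with g h1 h2 a ha
  obtain ⟨b, hb, c, hc, rfl⟩ := Submodule.mem_sup.1 ha
  rw [map_add]
  exact Submodule.add_mem_sup (h1 b hb) (h2 c hc)

/-- The components of the values of a homogeneous map. -/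
lemma Shift.proj_eq {s : ℤ} {φ : W.H P →ₗ[W.K] W.H Q} (h : Shift W s φ) {i l : ℕ}
    (hl : (l : ℤ) = i + 2 * s) (a : W.H P) :
    proj (W.isInternal Q) l (φ a) = φ (proj (W.isInternal P) i a) := by
  refine gr_induction (W.isInternal P) (p := fun a => proj (W.isInternal Q) l (φ a) =
    φ (proj (W.isInternal P) i a)) ?_ ?_ a
  · intro m a ha
    have h1 := h m a ha
    by_cases hm : m = i
    · subst hm
      rw [← hl, grZ_natCast] at h1
      rw [proj_same _ h1, proj_same _ ha]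
    · rw [proj_ne _ ha hm, map_zero]
      by_cases hn : 0 ≤ (m : ℤ) + 2 * s
      · obtain ⟨l', hl'⟩ := Int.eq_ofNat_of_zero_le hn
        rw [hl', grZ_natCast] at h1
        exact proj_ne _ h1 (by omega)
      · rw [grZ_of_neg (by omega)] at h1
        rw [(Submodule.mem_bot _).1 h1, map_zero]
  · intro a b ha hb
    rw [map_add, map_add, map_add, map_add, ha, hb]

lemma Shift.proj_none {s : ℤ} {φ : W.H P →ₗ[W.K] W.H Q} (h : Shift W s φ) {l : ℕ}
    (hl : ∀ i : ℕ, (l : ℤ) ≠ i + 2 * s) (a : W.H P) :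
    proj (W.isInternal Q) l (φ a) = 0 := by
  refine gr_induction (W.isInternal P) (p := fun a => proj (W.isInternal Q) l (φ a) = 0)
    ?_ ?_ a
  · intro m a ha
    have h1 := h m a ha
    by_cases hn : 0 ≤ (m : ℤ) + 2 * s
    · obtain ⟨l', hl'⟩ := Int.eq_ofNat_of_zero_le hn
      rw [hl', grZ_natCast] at h1
      exact proj_ne _ h1 (fun h => hl m (by rw [← h]; exact hl'.symm))
    · rw [grZ_of_neg (by omega)] at h1
      rw [(Submodule.mem_bot _).1 h1, map_zero]
  · intro a b ha hb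
    rw [map_add, map_add, ha, hb, add_zero]

lemma Shift.range_gr {s : ℤ} {φ : W.H P →ₗ[W.K] W.H Q} (h : Shift W s φ) :
    Gr W (LinearMap.range φ) := by
  rintro l _ ⟨a, rfl⟩
  by_cases hl : ∃ i : ℕ, (l : ℤ) = i + 2 * s
  · obtain ⟨i, hi⟩ := hl
    exact ⟨_, (h.proj_eq hi a).symm⟩
  · push Not at hl
    rw [h.proj_none hl a]
    exact Submodule.zero_mem _

lemma Shift.comap_gr {s : ℤ} {φ : W.H P →ₗ[W.K] W.H Q} (h : Shift W s φ)
    {V : Submodule W.K (W.H Q)} (hV : Gr W V) : Gr W (V.comap φ) := by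
  intro i a ha
  rw [Submodule.mem_comap]
  by_cases hn : 0 ≤ (i : ℤ) + 2 * s
  · obtain ⟨l, hl⟩ := Int.eq_ofNat_of_zero_le hn
    rw [← h.proj_eq hl.symm a]
    exact hV l _ ha
  · have h1 := h i _ (proj_mem (W.isInternal P) i a)
    rw [grZ_of_neg (by omega)] at h1
    rw [(Submodule.mem_bot _).1 h1]
    exact Submodule.zero_mem _

lemma IsTw.range_stable {s : ℤ} {φ : W.H P →ₗ[W.K] W.H Q} (h : IsTw G s φ) :
    Stable G (LinearMap.range φ) := by
  filter_upwards [h.act] with g hg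
  rintro _ ⟨a, rfl⟩
  rw [hg]
  exact Submodule.smul_mem _ _ ⟨_, rfl⟩

lemma IsTw.comap_stable {s : ℤ} {φ : W.H P →ₗ[W.K] W.H Q} (h : IsTw G s φ)
    {V : Submodule W.K (W.H Q)} (hV : Stable G V) : Stable G (V.comap φ) := by
  filter_upwards [h.act, hV] with g hg hg' a ha
  rw [Submodule.mem_comap]
  have h1 := hg' _ ha
  rw [hg] at h1
  exact (Submodule.smul_mem_iff _ (chi_ne0 (G := G) g s)).1 h1

end Pool.Agent.U226.GT
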